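import Mathlib

set_option autoImplicit false

namespace Pool.Agent.H319.FPR

/-- A nontrivial finitely generated group has a simple factor group (copied from the library). -/
theorem exists_maximal_normal {H : Type} [Group H] [Nontrivial H] (hfg : Group.FG H) :
    ∃ N : Subgroup H, ∃ _ : N.Normal, IsSimpleGroup (H ⧸ N) := by
  classical
  obtain ⟨S, hS⟩ := hfg.out
  let A : Set (Subgroup H) := {N | N.Normal ∧ N ≠ ⊤}
  have hz := zorn_le_nonempty₀ A (by
    intro c hcA hc N₀ hN₀
    refine ⟨sSup c, ⟨?_, ?_⟩, fun z hz => le_sSup hz⟩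
    · refine ⟨fun a ha g => ?_⟩
      rw [Subgroup.mem_sSup_of_directedOn ⟨N₀, hN₀⟩ hc.directedOn] at ha ⊢
      obtain ⟨N, hN, haN⟩ := ha
      exact ⟨N, hN, (hcA hN).1.conj_mem a haN g⟩
    · intro htop
      have h1 : ∀ s ∈ S, ∃ N ∈ c, s ∈ N := by
        intro s _
        have : s ∈ sSup c := by rw [htop]; exact Subgroup.mem_top s
        rwa [Subgroup.mem_sSup_of_directedOn ⟨N₀, hN₀⟩ hc.directedOn] at this
      have h2 : ∀ F : Finset H, F ⊆ S → ∃ N ∈ c, ∀ s ∈ F, s ∈ N := by
        intro F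
        induction F using Finset.induction_on with
        | empty => intro _; exact ⟨N₀, hN₀, by simp⟩
        | insert a F _ ih =>
          intro hF
          obtain ⟨N, hN, hNF⟩ := ih (fun t ht => hF (Finset.mem_insert_of_mem ht))
          obtain ⟨N', hN', ha⟩ := h1 a (hF (Finset.mem_insert_self _ _))
          obtain ⟨M, hM, hNM, hN'M⟩ := hc.directedOn N hN N' hN'
          refine ⟨M, hM, ?_⟩
          intro s hs
          rcases Finset.mem_insert.1 hs with rfl | hs
          · exact hN'M ha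
          · exact hNM (hNF s hs)
      obtain ⟨N, hN, hNS⟩ := h2 S (Finset.Subset.refl _)
      apply (hcA hN).2
      rw [← top_le_iff, ← hS, Subgroup.closure_le]
      exact hNS) ⊥ ⟨inferInstance, bot_ne_top⟩
  obtain ⟨N, _, hN⟩ := hz
  have : N.Normal := hN.prop.1
  refine ⟨N, inferInstance, ?_⟩
  have : Nontrivial (H ⧸ N) := QuotientGroup.nontrivial_iff.2 hN.prop.2
  refine ⟨fun K hK => ?_⟩
  by_cases hKt : K = ⊤
  · exact Or.inr hKt
  left
  have hc1 : (K.comap (QuotientGroup.mk' N)) ∈ A := by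
    refine ⟨hK.comap _, ?_⟩
    intro e
    apply hKt
    rw [← Subgroup.map_comap_eq_self_of_surjective (QuotientGroup.mk'_surjective N) K, e,
      Subgroup.map_top_of_surjective _ (QuotientGroup.mk'_surjective N)]
  have hc2 : N ≤ K.comap (QuotientGroup.mk' N) := by
    intro a ha
    show (QuotientGroup.mk' N) a ∈ K
    have : (QuotientGroup.mk' N) a = 1 := (QuotientGroup.eq_one_iff a).2 ha
    rw [this]; exact Subgroup.one_mem _
  have hc3 := hN.le_of_ge hc1 hc2
  rw [eq_bot_iff]
  intro q hq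
  obtain ⟨a, rfl⟩ := QuotientGroup.mk'_surjective N q
  have : a ∈ N := hc3 hq
  rw [Subgroup.mem_bot]
  exact (QuotientGroup.eq_one_iff a).2 this

end Pool.Agent.H319.FPR
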