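import Pool.Agent.H319.FPR.EA
import Pool.Agent.H319.FPR.MaxN

set_option autoImplicit false

open scoped commutatorElement

namespace Pool.Agent.H319.FPR

open Pool.Agent.H45R3.UG

/-- a subgroup of finite index of a finitely generated normal subgroup contains a normal subgroup
of the whole group which has finite index -/
theorem charcore2 {G : Type} [Group G] {D : Subgroup G} (hDn : D.Normal) (hfg : Group.FG D)
    (H : Subgroup D) (hH : H.FiniteIndex) :
    ∃ N : Subgroup G, N.Normal ∧ N ≤ D ∧ N.relIndex D ≠ 0 ∧ N ≤ H.map D.subtype := by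
  have hfinq : Finite (D ⧸ H) := Subgroup.finite_quotient_of_finiteIndex
  obtain ⟨d, ⟨e⟩⟩ := Finite.exists_equiv_fin (D ⧸ H)
  have hfinh := finite_hom hfg d
  let N₀ : Subgroup D := ⨅ φ : D →* Equiv.Perm (Fin d), φ.ker
  have hN₀ : N₀.FiniteIndex := Subgroup.finiteIndex_iInf fun φ => inferInstance
  have hN₀H : N₀ ≤ H := by
    let φ₀ : D →* Equiv.Perm (Fin d) :=
      (e.permCongrHom.toMonoidHom).comp (MulAction.toPermHom D (D ⧸ H))
    have h1 : N₀ ≤ φ₀.ker := iInf_le _ φ₀
    have h2 : φ₀.ker = H.normalCore := by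
      rw [Subgroup.normalCore_eq_ker]
      ext x
      rw [MonoidHom.mem_ker, MonoidHom.mem_ker]
      constructor
      · intro h
        exact e.permCongrHom.injective (by rw [map_one]; exact h)
      · intro h
        show e.permCongrHom (MulAction.toPermHom D (D ⧸ H) x) = 1
        rw [h, map_one]
    exact (h1.trans h2.le).trans (Subgroup.normalCore_le H)
  refine ⟨N₀.map D.subtype, ?_, ?_, ?_, ?_⟩
  · constructor
    rintro _ ⟨x, hx, rfl⟩ g
    refine ⟨⟨g * x * g⁻¹, hDn.conj_mem _ x.2 g⟩, ?_, rfl⟩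
    have hx' : ∀ φ : D →* Equiv.Perm (Fin d), φ x = 1 := by
      intro φ
      have := Subgroup.mem_iInf.1 hx φ
      exact this
    show _ ∈ N₀
    rw [Subgroup.mem_iInf]
    intro φ
    let c : D →* D :=
      { toFun := fun y => ⟨g * y * g⁻¹, hDn.conj_mem _ y.2 g⟩
        map_one' := by apply Subtype.ext; simp
        map_mul' := by intro y z; apply Subtype.ext; simp }
    exact hx' (φ.comp c)
  · rintro _ ⟨x, _, rfl⟩
    exact x.2
  · have h1 : (N₀.map D.subtype).relIndex D = N₀.index := by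
      rw [Subgroup.relIndex, Subgroup.subgroupOf, Subgroup.comap_map_eq_self_of_injective
        D.subtype_injective]
    rw [h1]
    exact hN₀.index_ne_zero
  · exact Subgroup.map_mono hN₀H

lemma vn_surj {G Q : Type} [Group G] [Group Q] (f : G →* Q) (hf : Function.Surjective f)
    (h : VirtNilp G) : VirtNilp Q := by
  obtain ⟨U, hU, hn⟩ := h
  have h1 : (U.map f).FiniteIndex := by
    constructor
    intro h0
    have h2 := Subgroup.index_map_dvd U hf
    rw [h0] at h2
    exact hU.index_ne_zero (Nat.eq_zero_of_zero_dvd h2)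
  refine ⟨U.map f, h1, ?_⟩
  have := hn
  exact Group.nilpotent_of_surjective (f.subgroupMap U) (f.subgroupMap_surjective U)

section
variable {n : ℕ} (N : Subgroup (FreeGroup (Fin n))) [N.Normal]
    (hN : N ≠ ⊥) (hinv : ∀ φ : FreeGroup (Fin n) →* FreeGroup (Fin n), ∀ x ∈ N, φ x ∈ N)
    (R : Set (FreeGroup (Fin n))) (hR : R.Finite) (hRN : Subgroup.normalClosure R = N)
include hN hinv hR hRN

/-- the smallest normal subgroup with virtually nilpotent factor group has no proper subgroups of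
finite index -/
theorem no_finite_index {H : Type} [Group H] (hfg : Group.FG H) (hH : Laws N H) (M : Subgroup H)
    [M.Normal] (hv : VirtNilp (H ⧸ M))
    (hmin : ∀ K : Subgroup H, ∀ _ : K.Normal, VirtNilp (H ⧸ K) → M ≤ K)
    (U : Subgroup M) (hU : U.FiniteIndex) : U = ⊤ := by
  have hr := restr_of N hN hinv R hR hRN H hH
  have hMfg := fg_of_vn_quot hr hfg M hv
  obtain ⟨K, hKn, hKM, hKi, hKU⟩ := charcore2 (G := H) (D := M) inferInstance
    ((Group.fg_iff_subgroup_fg _).2 hMfg) U hU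
  let π : H →* H ⧸ K := QuotientGroup.mk' K
  have hπs : Function.Surjective π := QuotientGroup.mk'_surjective K
  have hJn : (M.map π).Normal := Subgroup.Normal.map inferInstance π hπs
  have hJf : Finite (M.map π) := by
    have h3 : Nat.card (M.map π) ≠ 0 := by
      rw [← Subgroup.relIndex_bot_left, ← Subgroup.relIndex_comap, MonoidHom.comap_bot,
        QuotientGroup.ker_mk']
      exact hKi
    exact Nat.finite_of_card_ne_zero h3
  have hv2 : VirtNilp ((H ⧸ K) ⧸ M.map π) := by
    let f : H ⧸ M →* (H ⧸ K) ⧸ M.map π := QuotientGroup.lift M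
      ((QuotientGroup.mk' (M.map π)).comp π) (fun x hx =>
        (QuotientGroup.eq_one_iff _).2 ⟨x, hx, rfl⟩)
    refine vn_surj f ?_ hv
    intro y
    obtain ⟨z, rfl⟩ := QuotientGroup.mk'_surjective _ y
    obtain ⟨x, rfl⟩ := hπs z
    exact ⟨QuotientGroup.mk' M x, rfl⟩
  have hvK : VirtNilp (H ⧸ K) := combine N hN hinv R hR hRN
    (Group.fg_of_surjective (f := π) hπs) (hH.surj π hπs) (M.map π) vn_of_finite hv2
  have hMK : M ≤ K := hmin K hKn hvK
  rw [eq_top_iff]
  rintro x -
  obtain ⟨y, hy, hyx⟩ := hKU (hMK x.2)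
  have : y = x := Subtype.ext hyx
  rwa [this] at hy

/-- **The dichotomy.** -/
theorem simple_or_residual {H : Type} [Group H] (hfg : Group.FG H) (hH : Laws N H)
    (hv : ¬ VirtNilp H) :
    (∃ (M : Subgroup H) (_ : M.Normal) (L : Subgroup M) (_ : L.Normal), M.FG ∧ VirtNilp (H ⧸ M) ∧
      (∀ U : Subgroup M, U.FiniteIndex → U = ⊤) ∧ IsSimpleGroup (M ⧸ L) ∧ Infinite (M ⧸ L)) ∨
    (∃ (M : Subgroup H) (_ : M.Normal), ¬ VirtNilp (H ⧸ M) ∧
      ∀ x ∉ M, ∃ (K : Subgroup H) (_ : K.Normal), M ≤ K ∧ x ∉ K ∧ VirtNilp (H ⧸ K)) := by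
  obtain ⟨M, hM⟩ : ∃ M : Subgroup H, M = ⨅ K : {K : Subgroup H // ∃ _ : K.Normal,
    VirtNilp (H ⧸ K)}, K.1 := ⟨_, rfl⟩
  have hMn : M.Normal := by
    rw [hM]
    exact Subgroup.normal_iInf_normal (fun K => K.2.1)
  have hMle : ∀ K : Subgroup H, ∀ _ : K.Normal, VirtNilp (H ⧸ K) → M ≤ K := by
    intro K hK hvK
    rw [hM]
    exact iInf_le (fun K : {K : Subgroup H // ∃ _ : K.Normal, VirtNilp (H ⧸ K)} => K.1)
      ⟨K, hK, hvK⟩
  by_cases hvM : VirtNilp (H ⧸ M)
  · left
    have hr := restr_of N hN hinv R hR hRN H hH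
    have hMfg := fg_of_vn_quot hr hfg M hvM
    have hno := no_finite_index N hN hinv R hR hRN hfg hH M hvM hMle
    have hMfg' : Group.FG M := (Group.fg_iff_subgroup_fg _).2 hMfg
    have hnt : Nontrivial M := by
      rw [Subgroup.nontrivial_iff_ne_bot]
      intro h0
      apply hv
      subst h0
      exact vn_surj (QuotientGroup.quotientBot (G := H)).toMonoidHom
        (QuotientGroup.quotientBot (G := H)).surjective hvM
    obtain ⟨L, hL, hs⟩ := exists_maximal_normal
      (H := M) hMfg'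
    refine ⟨M, hMn, L, hL, hMfg, hvM, fun U hU => hno U hU, hs, ?_⟩
    by_contra hcon
    rw [not_infinite_iff_finite] at hcon
    have h5 : L.FiniteIndex := Subgroup.finiteIndex_of_finite_quotient
    have h6 := hno L h5
    have h7 := hs.toNontrivial
    rw [QuotientGroup.nontrivial_iff] at h7
    exact h7 h6
  · right
    refine ⟨M, hMn, hvM, ?_⟩
    intro x hx
    rw [hM, Subgroup.mem_iInf] at hx
    push Not at hx
    obtain ⟨⟨K, hK, hvK⟩, hxK⟩ := hx
    exact ⟨K, hK, hMle K hK hvK, hxK, hvK⟩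

end

end Pool.Agent.H319.FPR
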