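import Pool.Agent.H319.FPR.Vn

set_option autoImplicit false

open scoped commutatorElement

namespace Pool.Agent.H319.FPR

open Pool.Agent.H45R3.UG

/-- Closure properties of the class of elementary amenable groups. -/
structure EAClosed (P : ∀ (G : Type) [Group G], Prop) : Prop where
  finite : ∀ (G : Type) [Group G] [Finite G], P G
  comm : ∀ (G : Type) [Group G], (∀ a b : G, a * b = b * a) → P G
  iso : ∀ (G G' : Type) [Group G] [Group G'], (G ≃* G') → P G → P G'
  sub : ∀ (G : Type) [Group G] (S : Subgroup G), P G → P S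
  quot : ∀ (G : Type) [Group G] (M : Subgroup G) [M.Normal], P G → P (G ⧸ M)
  ext : ∀ (G : Type) [Group G] (M : Subgroup G) [M.Normal], P M → P (G ⧸ M) → P G
  union : ∀ (G : Type) [Group G], (∀ S : Subgroup G, S.FG → P S) → P G

/-- Elementary amenable groups: the smallest class of groups that contains the finite and the
abelian groups and is closed under isomorphisms, subgroups, quotients, extensions and directed
unions. -/
def ElemAmenable (G : Type) [Group G] : Prop :=
  ∀ P : (∀ (G : Type) [Group G], Prop), EAClosed P → P G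

section laws
variable {n : ℕ} {N : Subgroup (FreeGroup (Fin n))}

lemma Laws.sub {H : Type} [Group H] (h : Laws N H) (S : Subgroup H) : Laws N S := by
  intro f x hx
  have h1 : S.subtype (f x) = 1 := h (S.subtype.comp f) hx
  show f x = 1
  exact S.subtype_injective (by rw [h1, map_one])

lemma Laws.surj {H Q : Type} [Group H] [Group Q] (h : Laws N H) (p : H →* Q)
    (hp : Function.Surjective p) : Laws N Q := by
  intro f x hx
  choose t ht using hp
  have hg : p.comp (FreeGroup.lift (fun l => t (f (FreeGroup.of l)))) = f := by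
    ext l
    simp only [MonoidHom.comp_apply, FreeGroup.lift_apply_of]
    exact ht _
  have h1 : FreeGroup.lift (fun l => t (f (FreeGroup.of l))) x = 1 := h _ hx
  show f x = 1
  rw [← hg, MonoidHom.comp_apply, h1, map_one]

end laws

lemma restr_sub {H : Type} [Group H] (h : Restr H) (S : Subgroup H) : Restr S := by
  intro a b
  have h1 := h (a : H) (b : H)
  set C := Subgroup.closure (Set.range fun j : ℤ => a ^ j * b * (a ^ j)⁻¹) with hC
  have h2 : C.map S.subtype =
      Subgroup.closure (Set.range fun j : ℤ => (a : H) ^ j * (b : H) * ((a : H) ^ j)⁻¹) := by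
    rw [hC, MonoidHom.map_closure, ← Set.range_comp]
    congr 1
  rw [← h2] at h1
  have e := C.equivMapOfInjective S.subtype S.subtype_injective
  have h3 : Group.FG (C.map S.subtype) := (Group.fg_iff_subgroup_fg _).2 h1
  have h4 : Group.FG C := Group.fg_of_surjective (f := e.symm.toMonoidHom) e.symm.surjective
  exact (Group.fg_iff_subgroup_fg _).1 h4

lemma vn_of_finite {S : Type} [Group S] [Finite S] : VirtNilp S :=
  ⟨⊥, inferInstance, inferInstance⟩

lemma vn_of_comm {S : Type} [Group S] (h : ∀ a b : S, a * b = b * a) : VirtNilp S := by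
  refine ⟨⊤, inferInstance, ?_⟩
  let _ : CommGroup (⊤ : Subgroup S) :=
    { (inferInstance : Group (⊤ : Subgroup S)) with
      mul_comm := fun a b => Subtype.ext (h a b) }
  infer_instance

/-- the finite index subgroup with soluble image -/
lemma exists_sol {S : Type} [Group S] (J : Subgroup S) [J.Normal] (hv : VirtNilp (S ⧸ J)) :
    ∃ (U : Subgroup (S ⧸ J)), U.FiniteIndex ∧ Group.IsSolvable U ∧
      (U.comap (QuotientGroup.mk' J)).FiniteIndex := by
  obtain ⟨U, hU, hn⟩ := hv
  refine ⟨U, hU, ?_, ?_⟩
  · have := hn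
    infer_instance
  · have := hU
    constructor
    rw [Subgroup.index_comap_of_surjective U (QuotientGroup.mk'_surjective J)]
    exact hU.index_ne_zero

lemma fg_of_vn_quot {S : Type} [Group S] (hr : Restr S) (hfg : Group.FG S) (J : Subgroup S)
    [J.Normal] (hv : VirtNilp (S ⧸ J)) : J.FG := by
  obtain ⟨U, hU, hs, hUi⟩ := exists_sol J hv
  set U' := U.comap (QuotientGroup.mk' J) with hU'
  have hJU : J ≤ U' := by
    intro x hx
    show (QuotientGroup.mk' J) x ∈ U
    have : (QuotientGroup.mk' J) x = 1 := (QuotientGroup.eq_one_iff x).2 hx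
    rw [this]
    exact U.one_mem
  have hU'fg : Group.FG U' := Subgroup.fg_of_index_ne_zero U'
  obtain ⟨d, hd⟩ := (Group.isSolvable_def U).1 hs
  let φ : U' →* U := ((QuotientGroup.mk' J).comp U'.subtype).codRestrict U (fun x => x.2)
  have h1 : derivedSeries U' d ≤ J.subgroupOf U' := by
    intro x hx
    have h2 := map_derivedSeries_le_derivedSeries φ d (Subgroup.mem_map_of_mem φ hx)
    rw [hd, Subgroup.mem_bot] at h2
    have h3 : (QuotientGroup.mk' J) (x : S) = 1 := congrArg Subtype.val h2
    exact (QuotientGroup.eq_one_iff (x : S)).1 h3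
  have h4 : (J.subgroupOf U').FG := fg_of_soluble (restr_sub hr U') hU'fg _ d h1
  have h5 := fg_map U'.subtype h4
  rwa [Subgroup.subgroupOf_map_subtype, inf_eq_left.2 hJU] at h5

section combine
variable {n : ℕ} (N : Subgroup (FreeGroup (Fin n))) [N.Normal]
    (hN : N ≠ ⊥) (hinv : ∀ φ : FreeGroup (Fin n) →* FreeGroup (Fin n), ∀ x ∈ N, φ x ∈ N)
    (R : Set (FreeGroup (Fin n))) (hR : R.Finite) (hRN : Subgroup.normalClosure R = N)
include hN hinv hR hRN

lemma combine {S : Type} [Group S] (hfg : Group.FG S) (hS : Laws N S) (J : Subgroup S)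
    [J.Normal] (hJ : VirtNilp J) (hv : VirtNilp (S ⧸ J)) : VirtNilp S := by
  have hr := restr_of N hN hinv R hR hRN S hS
  have hJfg := fg_of_vn_quot hr hfg J hv
  obtain ⟨J0, hJ0n, hJ0J, hJ0i, hJ0nil⟩ := charcore (G := S) (D := J) inferInstance
    ((Group.fg_iff_subgroup_fg _).2 hJfg) hJ
  obtain ⟨U, hU, hs, hUi⟩ := exists_sol J hv
  -- the centralizer of `J / J0`
  let π : S →* S ⧸ J0 := QuotientGroup.mk' J0
  have hπs : Function.Surjective π := QuotientGroup.mk'_surjective J0
  have hJbn : (J.map π).Normal := Subgroup.Normal.map inferInstance π hπs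
  have hJbf : Finite (J.map π) := by
    have h3 : Nat.card (J.map π) ≠ 0 := by
      rw [← Subgroup.relIndex_bot_left, ← Subgroup.relIndex_comap, MonoidHom.comap_bot,
        QuotientGroup.ker_mk']
      exact hJ0i
    exact Nat.finite_of_card_ne_zero h3
  let c : S ⧸ J0 →* MulAut (J.map π) := MulAut.conjNormal
  have hfinMA : Finite (MulAut (J.map π)) :=
    Finite.of_injective (fun e : MulAut (J.map π) => (e : J.map π → J.map π))
      DFunLike.coe_injective
  have hci : c.ker.FiniteIndex := inferInstance
  have hCi : (c.ker.comap π).FiniteIndex := by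
    constructor
    rw [Subgroup.index_comap_of_surjective _ hπs]
    exact hci.index_ne_zero
  set W : Subgroup S := (c.ker.comap π) ⊓ (U.comap (QuotientGroup.mk' J)) with hW
  have hWi : W.FiniteIndex := inferInstance
  set X : Subgroup S := J ⊓ W with hX
  have hXsol : Group.IsSolvable X := by
    have h1 : Group.IsSolvable (J0 ⊓ X : Subgroup S) := by
      have : Group.IsSolvable J0 := by
        have := hJ0nil
        infer_instance
      exact Group.isSolvable_of_isSolvable_injective
        (Subgroup.inclusion_injective (inf_le_left : J0 ⊓ X ≤ J0))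
    refine Group.isSolvable_of_ker_le_range (Subgroup.inclusion (inf_le_right : J0 ⊓ X ≤ X))
      (Abelianization.of (G := X)) ?_
    rw [Abelianization.ker_of, commutator_def, Subgroup.commutator_le]
    intro a _ b _
    have hab : ((⁅a, b⁆ : X) : S) ∈ J0 := by
      have h2 : π (a : S) * π (b : S) = π (b : S) * π (a : S) := by
        have h3 : c (π (a : S)) = 1 := a.2.2.1
        have h4 : (c (π (a : S)) ⟨π (b : S), ⟨b, b.2.1, rfl⟩⟩ : J.map π) =
            ⟨π (b : S), ⟨b, b.2.1, rfl⟩⟩ := by rw [h3]; rfl
        have h5 := congrArg Subtype.val h4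
        have h6 : π (a : S) * π (b : S) * (π (a : S))⁻¹ = π (b : S) := by
          exact (MulAut.conjNormal_apply (H := J.map π) (π (a : S))
            ⟨π (b : S), ⟨b, b.2.1, rfl⟩⟩).symm.trans h5
        calc π (a : S) * π (b : S) = (π (a : S) * π (b : S) * (π (a : S))⁻¹) * π (a : S) := by group
          _ = π (b : S) * π (a : S) := by rw [h6]
      have h7 : π ((⁅a, b⁆ : X) : S) = 1 := by
        show π (⁅(a : S), (b : S)⁆) = 1
        rw [map_commutatorElement, commutatorElement_eq_one_iff_mul_comm]
        exact h2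
      exact (QuotientGroup.eq_one_iff _).1 h7
    exact ⟨⟨_, hab, (⁅a, b⁆ : X).2⟩, rfl⟩
  have hWsol : Group.IsSolvable W := by
    let g : W →* U := ((QuotientGroup.mk' J).comp W.subtype).codRestrict U (fun x => x.2.2)
    refine Group.isSolvable_of_ker_le_range (Subgroup.inclusion (inf_le_right : X ≤ W)) g ?_
    intro x hx
    have h1 : g x = 1 := hx
    have h2 : (QuotientGroup.mk' J) (x : S) = 1 := congrArg Subtype.val h1
    have h3 : (x : S) ∈ J := (QuotientGroup.eq_one_iff (x : S)).1 h2
    exact ⟨⟨x, h3, x.2⟩, rfl⟩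
  obtain ⟨d, hd⟩ := (Group.isSolvable_def W).1 hWsol
  have hWfg : Group.FG W := Subgroup.fg_of_index_ne_zero W
  exact vn_up hWi (vn_of_soluble N hN hinv R hR hRN W (hS.sub W) hWfg d hd)

/-- all finitely generated sections of `G` satisfying the laws are virtually nilpotent -/
def Good (N : Subgroup (FreeGroup (Fin n))) (G : Type) [Group G] : Prop :=
  ∀ (S : Type) [Group S], Group.FG S → Laws N S →
    (∃ (L : Type) (_ : Group L) (i : L →* G) (f : L →* S),
      Function.Injective i ∧ Function.Surjective f) → VirtNilp S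

theorem good_closed : EAClosed (fun G _ => Good N G) where
  finite := by
    intro G _ _ S _ hfg hS ⟨L, _, i, f, hi, hf⟩
    have : Finite L := Finite.of_injective i hi
    have : Finite S := Finite.of_surjective f hf
    exact vn_of_finite
  comm := by
    intro G _ hc S _ hfg hS ⟨L, _, i, f, hi, hf⟩
    refine vn_of_comm ?_
    intro a b
    obtain ⟨a', rfl⟩ := hf a
    obtain ⟨b', rfl⟩ := hf b
    rw [← map_mul, ← map_mul]
    congr 1
    apply hi
    rw [map_mul, map_mul]
    exact hc _ _
  iso := by
    intro G G' _ _ e hG S _ hfg hS ⟨L, _, i, f, hi, hf⟩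
    exact hG S hfg hS ⟨L, _, e.symm.toMonoidHom.comp i, f, e.symm.injective.comp hi, hf⟩
  sub := by
    intro G _ T hG S _ hfg hS ⟨L, _, i, f, hi, hf⟩
    exact hG S hfg hS ⟨L, _, T.subtype.comp i, f, T.subtype_injective.comp hi, hf⟩
  quot := by
    intro G _ M _ hG S _ hfg hS ⟨L, _, i, f, hi, hf⟩
    let e : L ≃* i.range := MonoidHom.ofInjective hi
    let L' : Subgroup G := i.range.comap (QuotientGroup.mk' M)
    let q : L' →* i.range :=
      ((QuotientGroup.mk' M).comp L'.subtype).codRestrict i.range (fun x => x.2)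
    have hq : Function.Surjective q := by
      rintro ⟨y, hy⟩
      obtain ⟨x, rfl⟩ := QuotientGroup.mk'_surjective M y
      exact ⟨⟨x, hy⟩, rfl⟩
    exact hG S hfg hS ⟨L', inferInstance, L'.subtype, f.comp (e.symm.toMonoidHom.comp q),
      L'.subtype_injective, hf.comp (e.symm.surjective.comp hq)⟩
  ext := by
    intro G _ M _ hM hQ S _ hfg hS ⟨L, _, i, f, hi, hf⟩
    let p : L →* G ⧸ M := (QuotientGroup.mk' M).comp i
    let J : Subgroup S := p.ker.map f
    have hJn : J.Normal := Subgroup.Normal.map inferInstance f hf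
    have hv : VirtNilp (S ⧸ J) := by
      refine hQ (S ⧸ J) (Group.fg_of_surjective (f := QuotientGroup.mk' J)
        (QuotientGroup.mk'_surjective J)) (hS.surj (QuotientGroup.mk' J)
        (QuotientGroup.mk'_surjective J)) ?_
      refine ⟨L ⧸ p.ker, inferInstance, QuotientGroup.kerLift p,
        QuotientGroup.map p.ker J f (fun x hx => ⟨x, hx, rfl⟩),
        QuotientGroup.kerLift_injective p, ?_⟩
      intro y
      obtain ⟨s, rfl⟩ := QuotientGroup.mk'_surjective J y
      obtain ⟨l, rfl⟩ := hf s
      exact ⟨QuotientGroup.mk' _ l, rfl⟩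
    have hJ : VirtNilp J := by
      have hr := restr_of N hN hinv R hR hRN S hS
      have hJfg := fg_of_vn_quot hr hfg J hv
      refine hM J ((Group.fg_iff_subgroup_fg _).2 hJfg) (hS.sub J) ?_
      refine ⟨p.ker, inferInstance,
        (i.comp p.ker.subtype).codRestrict M (fun x => ?_),
        (f.comp p.ker.subtype).codRestrict J (fun x => ⟨x, x.2, rfl⟩), ?_, ?_⟩
      · have h1 : (QuotientGroup.mk' M) (i (x : L)) = 1 := x.2
        exact (QuotientGroup.eq_one_iff _).1 h1
      · intro x y hxy
        apply Subtype.ext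
        apply hi
        exact congrArg Subtype.val hxy
      · rintro ⟨_, ⟨x, hx, rfl⟩⟩
        exact ⟨⟨x, hx⟩, rfl⟩
    exact combine N hN hinv R hR hRN hfg hS J hJ hv
  union := by
    classical
    intro G _ hG S _ hfg hS ⟨L, _, i, f, hi, hf⟩
    obtain ⟨T, hT⟩ := Group.fg_def.1 hfg
    choose t ht using hf
    let L' : Subgroup L := Subgroup.closure ((T.image t : Finset L) : Set L)
    have hL'fg : L'.FG := ⟨T.image t, rfl⟩
    have hmapfg : (L'.map i).FG := fg_map i hL'fg
    refine hG (L'.map i) hmapfg S hfg hS ⟨L', inferInstance,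
      (i.comp L'.subtype).codRestrict (L'.map i) (fun x => ⟨x, x.2, rfl⟩),
      f.comp L'.subtype, ?_, ?_⟩
    · intro x y hxy
      apply Subtype.ext
      apply hi
      exact congrArg Subtype.val hxy
    · rw [← MonoidHom.range_eq_top, eq_top_iff, ← hT, Subgroup.closure_le]
      intro s hs
      refine ⟨⟨t s, Subgroup.subset_closure (by
        rw [Finset.coe_image]
        exact ⟨s, hs, rfl⟩)⟩, ?_⟩
      exact ht s

/-- The theorem for elementary amenable factor groups. -/
theorem main {H : Type} [Group H] (hfg : Group.FG H) (hH : Laws N H) (K : Subgroup H) [K.Normal]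
    (hK : ElemAmenable (H ⧸ K)) : K.FG ∧ VirtNilp (H ⧸ K) := by
  have hg : Good N (H ⧸ K) := hK _ (good_closed N hN hinv R hR hRN)
  have hv : VirtNilp (H ⧸ K) := hg (H ⧸ K)
    (Group.fg_of_surjective (f := QuotientGroup.mk' K) (QuotientGroup.mk'_surjective K))
    (hH.surj (QuotientGroup.mk' K) (QuotientGroup.mk'_surjective K))
    ⟨H ⧸ K, inferInstance, MonoidHom.id _, MonoidHom.id _, Function.injective_id,
      Function.surjective_id⟩
  exact ⟨fg_of_vn_quot (restr_of N hN hinv R hR hRN H hH) hfg K hv, hv⟩

end combine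

end Pool.Agent.H319.FPR
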