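import Pool.Agent.H319.FPR.Rel

set_option autoImplicit false

namespace Pool.Agent.H319.FPR

section
variable {H : Type} [Group H]

lemma mem_sup_zpowers (M : Subgroup H) (t : H)
    (ht : ∀ k : ℤ, ∀ m ∈ M, t ^ k * m * (t ^ k)⁻¹ ∈ M) {g : H}
    (hg : g ∈ M ⊔ Subgroup.zpowers t) : ∃ m ∈ M, ∃ k : ℤ, g = m * t ^ k := by
  let Q : Subgroup H :=
    { carrier := {g | ∃ m ∈ M, ∃ k : ℤ, g = m * t ^ k}
      one_mem' := ⟨1, M.one_mem, 0, by simp⟩
      mul_mem' := by
        rintro _ _ ⟨m, hm, k, rfl⟩ ⟨m', hm', l, rfl⟩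
        refine ⟨m * (t ^ k * m' * (t ^ k)⁻¹), M.mul_mem hm (ht k m' hm'), k + l, ?_⟩
        rw [zpow_add]
        group
      inv_mem' := by
        rintro _ ⟨m, hm, k, rfl⟩
        refine ⟨t ^ (-k) * m⁻¹ * (t ^ (-k))⁻¹, ht (-k) _ (M.inv_mem hm), -k, ?_⟩
        group }
  have h1 : M ⊔ Subgroup.zpowers t ≤ Q := by
    apply sup_le
    · intro m hm
      exact ⟨m, hm, 0, by simp⟩
    · intro y hy
      obtain ⟨k, rfl⟩ := Subgroup.mem_zpowers_iff.1 hy
      exact ⟨1, M.one_mem, k, by simp⟩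
  exact h1 hg

lemma inf_zpowers_fg (M : Subgroup H) (t : H) : (M ⊓ Subgroup.zpowers t).FG := by
  obtain ⟨⟨g, hg⟩, hgen⟩ :=
    (inferInstance : IsCyclic (M.subgroupOf (Subgroup.zpowers t))).exists_generator
  refine ⟨{(g : H)}, ?_⟩
  apply le_antisymm
  · rw [Finset.coe_singleton, Subgroup.closure_le, Set.singleton_subset_iff]
    exact ⟨hg, g.2⟩
  · rintro y ⟨hy1, hy2⟩
    obtain ⟨k, hk⟩ := Subgroup.mem_zpowers_iff.1 (hgen ⟨⟨y, hy2⟩, hy1⟩)
    have h1 : (g : H) ^ k = y := by
      have := congrArg (fun z : (M.subgroupOf (Subgroup.zpowers t)) =>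
        ((z : Subgroup.zpowers t) : H)) hk
      simpa using this
    rw [← h1]
    exact Subgroup.zpow_mem _ (Subgroup.subset_closure (by simp)) k

/-- the cyclic step -/
lemma fg_cyclic (hr : Restr H) (P M : Subgroup H) (hP : P.FG) (hMP : M ≤ P)
    (hn : ∀ p ∈ P, ∀ m ∈ M, p * m * p⁻¹ ∈ M) (t : H) (htP : t ∈ P)
    (hPM : P ≤ M ⊔ Subgroup.zpowers t) : M.FG := by
  classical
  obtain ⟨S, hS⟩ := hP
  have htM : ∀ k : ℤ, ∀ m ∈ M, t ^ k * m * (t ^ k)⁻¹ ∈ M :=
    fun k m hm => hn _ (P.zpow_mem htP k) m hm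
  have hrep : ∀ s : S, ∃ m ∈ M, ∃ k : ℤ, (s : H) = m * t ^ k := by
    intro s
    apply mem_sup_zpowers M t htM
    apply hPM
    rw [← hS]
    exact Subgroup.subset_closure s.2
  choose a haM k hk using hrep
  obtain ⟨C, hC⟩ : ∃ C : Subgroup H, C = ⨆ s : S,
    Subgroup.closure (Set.range fun j : ℤ => t ^ j * a s * (t ^ j)⁻¹) := ⟨_, rfl⟩
  have hCfg : C.FG := by
    rw [hC]
    exact Subgroup.FG.iSup _ (fun s => hr t (a s))
  have hCM : C ≤ M := by
    rw [hC]
    apply iSup_le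
    intro s
    rw [Subgroup.closure_le]
    rintro _ ⟨j, rfl⟩
    exact htM j _ (haM s)
  have hCt : ∀ k : ℤ, ∀ m ∈ C, t ^ k * m * (t ^ k)⁻¹ ∈ C := by
    intro k m hm
    have h1 : C ≤ C.comap (MulAut.conj (t ^ k)).toMonoidHom := by
      conv_lhs => rw [hC]
      apply iSup_le
      intro s c hc
      show MulAut.conj (t ^ k) c ∈ C
      rw [MulAut.conj_apply, hC]
      exact (le_iSup (fun s : S => Subgroup.closure (Set.range fun j : ℤ =>
        t ^ j * a s * (t ^ j)⁻¹)) s) (closure_conj t (a s) k c hc)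
    have h2 := h1 hm
    have h3 : MulAut.conj (t ^ k) m ∈ C := h2
    rwa [MulAut.conj_apply] at h3
  have haC : ∀ s, a s ∈ C := by
    intro s
    rw [hC]
    refine (le_iSup (fun s : S => Subgroup.closure (Set.range fun j : ℤ =>
        t ^ j * a s * (t ^ j)⁻¹)) s) (Subgroup.subset_closure ⟨0, by simp⟩)
  have hPC : P ≤ C ⊔ Subgroup.zpowers t := by
    rw [← hS, Subgroup.closure_le]
    intro s hs
    have h1 := hk ⟨s, hs⟩
    have h2 : s = a ⟨s, hs⟩ * t ^ k ⟨s, hs⟩ := h1
    rw [h2]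
    exact Subgroup.mul_mem _ (Subgroup.mem_sup_left (haC _))
      (Subgroup.mem_sup_right (Subgroup.mem_zpowers_iff.2 ⟨_, rfl⟩))
  have hM : M = C ⊔ (M ⊓ Subgroup.zpowers t) := by
    apply le_antisymm
    · intro m hm
      obtain ⟨c, hc, l, rfl⟩ := mem_sup_zpowers C t hCt (hPC (hMP hm))
      have h1 : t ^ l ∈ M := by
        have : t ^ l = c⁻¹ * (c * t ^ l) := by group
        rw [this]
        exact M.mul_mem (M.inv_mem (hCM hc)) hm
      exact Subgroup.mul_mem _ (Subgroup.mem_sup_left hc)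
        (Subgroup.mem_sup_right ⟨h1, Subgroup.mem_zpowers_iff.2 ⟨_, rfl⟩⟩)
    · exact sup_le hCM inf_le_left
  rw [hM]
  exact hCfg.sup (inf_zpowers_fg M t)

/-- the abelian step -/
lemma fg_abelian (hr : Restr H) (M : Subgroup H) (S : Finset H) :
    ∀ P : Subgroup H, P.FG → P = M ⊔ Subgroup.closure (S : Set H) →
      (∀ p ∈ P, ∀ q ∈ P, p * q * p⁻¹ * q⁻¹ ∈ M) → M.FG := by
  classical
  induction S using Finset.induction_on with
  | empty =>
    intro P hP hPM _
    have : P = M := by simpa using hPM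
    rw [← this]
    exact hP
  | insert t S _ ih =>
    intro P hP hPM hcomm
    have hle : M ⊔ Subgroup.closure (S : Set H) ≤ P := by
      rw [hPM]
      refine sup_le_sup_left (Subgroup.closure_mono ?_) M
      simp
    refine ih (M ⊔ Subgroup.closure (S : Set H)) ?_ rfl
      (fun p hp q hq => hcomm p (hle hp) q (hle hq))
    refine fg_cyclic hr P _ hP hle ?_ t ?_ ?_
    · intro p hp m hm
      have e : p * m * p⁻¹ = (p * m * p⁻¹ * m⁻¹) * m := by group
      rw [e]
      exact Subgroup.mul_mem _ (Subgroup.mem_sup_left (hcomm p hp m (hle hm))) hm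
    · rw [hPM]
      exact Subgroup.mem_sup_right (Subgroup.subset_closure (by simp))
    · rw [hPM, Finset.coe_insert, Set.insert_eq, Subgroup.closure_union]
      refine sup_le (le_sup_left.trans le_sup_left) (sup_le ?_ ?_)
      · rw [Subgroup.closure_le, Set.singleton_subset_iff]
        exact Subgroup.mem_sup_right (Subgroup.mem_zpowers t)
      · exact le_sup_right.trans le_sup_left

lemma fg_comm (hr : Restr H) (P M : Subgroup H) (hP : P.FG) (hMP : M ≤ P)
    (hcomm : ∀ p ∈ P, ∀ q ∈ P, p * q * p⁻¹ * q⁻¹ ∈ M) : M.FG := by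
  obtain ⟨S, hS⟩ := id hP
  exact fg_abelian hr M S P hP (by rw [hS]; exact (sup_eq_right.2 hMP).symm) hcomm

/-- Normal subgroups with soluble factor group of finitely generated groups with `Restr` are
finitely generated. -/
theorem fg_of_soluble (hr : Restr H) (hH : Group.FG H) (K : Subgroup H) [K.Normal] (d : ℕ)
    (hd : derivedSeries H d ≤ K) : K.FG := by
  have key : ∀ i, (K ⊔ derivedSeries H i).FG := by
    intro i
    induction i with
    | zero =>
      rw [derivedSeries_zero, sup_top_eq]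
      exact Group.fg_def.1 hH
    | succ i ih =>
      refine fg_comm hr (K ⊔ derivedSeries H i) _ ih
        (sup_le_sup_left (derivedSeries_antitone H (Nat.le_succ i)) K) ?_
      intro p hp q hq
      have hsup : ∀ D : Subgroup H, K ⊔ D = (D.map (QuotientGroup.mk' K)).comap
          (QuotientGroup.mk' K) := by
        intro D
        rw [Subgroup.comap_map_eq, QuotientGroup.ker_mk', sup_comm]
      rw [hsup] at hp hq ⊢
      rw [Subgroup.mem_comap] at hp hq ⊢
      rw [derivedSeries_succ, Subgroup.map_commutator, map_mul, map_mul, map_mul, map_inv, map_inv]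
      exact Subgroup.commutator_mem_commutator hp hq
  have h1 := key d
  rwa [sup_eq_left.2 hd] at h1

end

end Pool.Agent.H319.FPR
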