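import Mathlib

set_option autoImplicit false

namespace Pool.Agent.H319.FPR

/-- the shift action of `ℤ` on the free group on `ℤ` -/
noncomputable def sh : Multiplicative ℤ →* MulAut (FreeGroup ℤ) where
  toFun k := FreeGroup.freeGroupCongr (Equiv.addRight (Multiplicative.toAdd k))
  map_one' := by
    have : (FreeGroup.freeGroupCongr (Equiv.addRight (Multiplicative.toAdd (1 : Multiplicative ℤ)))
        : FreeGroup ℤ ≃* FreeGroup ℤ).toMonoidHom = (MulEquiv.refl (FreeGroup ℤ)).toMonoidHom := by
      ext i
      simp
    ext x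
    exact DFunLike.congr_fun this x
  map_mul' := by
    intro k l
    have : (FreeGroup.freeGroupCongr (Equiv.addRight (Multiplicative.toAdd (k * l)))
        : FreeGroup ℤ ≃* FreeGroup ℤ).toMonoidHom =
        (FreeGroup.freeGroupCongr (Equiv.addRight (Multiplicative.toAdd k))).toMonoidHom.comp
        (FreeGroup.freeGroupCongr (Equiv.addRight (Multiplicative.toAdd l))).toMonoidHom := by
      ext i
      simp
      congr 1
      ring
    ext x
    exact DFunLike.congr_fun this x

lemma sh_of (k : Multiplicative ℤ) (i : ℤ) :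
    sh k (FreeGroup.of i) = FreeGroup.of (i + Multiplicative.toAdd k) := by
  simp [sh]

/-- the standard embedding of the free group on `ℤ` in the free group of rank two -/
noncomputable def emb : FreeGroup ℤ →* FreeGroup (Fin 2) :=
  FreeGroup.lift (fun i : ℤ => (FreeGroup.of 0) ^ i * FreeGroup.of 1 * ((FreeGroup.of 0) ^ i)⁻¹)

noncomputable def psi : FreeGroup (Fin 2) →* FreeGroup ℤ ⋊[sh] Multiplicative ℤ :=
  FreeGroup.lift ![SemidirectProduct.inr (Multiplicative.ofAdd 1),
    SemidirectProduct.inl (FreeGroup.of 0)]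

lemma psi_emb : psi.comp emb = SemidirectProduct.inl := by
  ext1 i
  have h0 : psi (FreeGroup.of 0) = SemidirectProduct.inr (Multiplicative.ofAdd 1) := by
    simp [psi]
  have h1 : psi (FreeGroup.of 1) = SemidirectProduct.inl (FreeGroup.of 0) := by
    simp [psi]
  simp only [MonoidHom.comp_apply, emb, FreeGroup.lift_apply_of, map_mul, map_zpow, map_inv, h0, h1]
  rw [← map_zpow, ← map_inv, ← SemidirectProduct.inl_aut, sh_of]
  simp

lemma emb_injective : Function.Injective emb := by
  have h : Function.Injective (psi.comp emb) := by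
    rw [psi_emb]
    exact SemidirectProduct.inl_injective
  exact Function.Injective.of_comp (f := psi) h

/-- A free group of finite rank embeds in the free group of rank two. -/
lemma exists_emb (n : ℕ) : ∃ f : FreeGroup (Fin n) →* FreeGroup (Fin 2), Function.Injective f := by
  rcases Nat.eq_zero_or_pos n with rfl | hn
  · refine ⟨1, ?_⟩
    intro a b _
    exact Subsingleton.elim a b
  · refine ⟨emb.comp (FreeGroup.map (fun i : Fin n => ((i : ℕ) : ℤ))), ?_⟩
    refine emb_injective.comp ?_
    refine Function.LeftInverse.injective (g := FreeGroup.map (fun z : ℤ =>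
      if h : z.toNat < n then (⟨z.toNat, h⟩ : Fin n) else ⟨0, hn⟩)) ?_
    intro x
    rw [FreeGroup.map.comp]
    have : ((fun z : ℤ => if h : z.toNat < n then (⟨z.toNat, h⟩ : Fin n) else ⟨0, hn⟩) ∘
        fun i : Fin n => ((i : ℕ) : ℤ)) = id := by
      funext i
      simp
    rw [this]
    exact FreeGroup.map.id' x

/-- A quotient of a free group of finite rank by a nontrivial fully invariant subgroup contains no
free subgroup of rank two. -/
theorem noF2 {n : ℕ} (N : Subgroup (FreeGroup (Fin n))) [N.Normal] (hN : N ≠ ⊥)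
    (hinv : ∀ φ : FreeGroup (Fin n) →* FreeGroup (Fin n), ∀ x ∈ N, φ x ∈ N) :
    ¬ ∃ f : FreeGroup (Fin 2) →* FreeGroup (Fin n) ⧸ N, Function.Injective f := by
  rintro ⟨f, hf⟩
  obtain ⟨w, hw, hw1⟩ := (Subgroup.bot_or_exists_ne_one N).resolve_left hN
  obtain ⟨e, he⟩ := exists_emb n
  have hsurj := QuotientGroup.mk'_surjective N
  choose s hs using hsurj
  let φ : FreeGroup (Fin n) →* FreeGroup (Fin n) :=
    FreeGroup.lift (fun i => s (f (e (FreeGroup.of i))))
  have hφ : (QuotientGroup.mk' N).comp φ = f.comp e := by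
    ext i
    simp only [MonoidHom.comp_apply, φ, FreeGroup.lift_apply_of]
    exact hs _
  have h1 : f (e w) = 1 := by
    have := DFunLike.congr_fun hφ w
    simp only [MonoidHom.comp_apply] at this
    rw [← this]
    exact (QuotientGroup.eq_one_iff _).2 (hinv φ w hw)
  apply hw1
  apply he
  apply hf
  rw [h1, map_one, map_one]

end Pool.Agent.H319.FPR
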