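import Pool.Graph.R_seed8.Helper931.A2
import Pool.Graph.R_seed8.Helper931.A4

set_option autoImplicit false

namespace Pool.Agent.H319.FPR

open Pool.Agent.H931

section
variable {K : Type} [Group K]

/-- the integers with the action of `K` by translations through `χ` -/
@[ext] structure VZ (χ : K →* Multiplicative ℤ) : Type where
  v : ℤ

variable (χ : K →* Multiplicative ℤ)

instance : MulAction K (VZ χ) where
  smul g z := ⟨z.v + Multiplicative.toAdd (χ g)⟩
  one_smul z := by
    show (⟨z.v + Multiplicative.toAdd (χ 1)⟩ : VZ χ) = z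
    simp
  mul_smul g h z := by
    show (⟨z.v + Multiplicative.toAdd (χ (g * h))⟩ : VZ χ) =
      ⟨(z.v + Multiplicative.toAdd (χ h)) + Multiplicative.toAdd (χ g)⟩
    rw [map_mul, toAdd_mul]
    congr 1
    ring

variable {χ}

lemma smul_v (g : K) (z : VZ χ) : (g • z).v = z.v + Multiplicative.toAdd (χ g) := rfl

variable {ι : Type} {x : ι → K}

/-- letters move by at most one -/
def Short (χ : K →* Multiplicative ℤ) (x : ι → K) : Prop :=
  ∀ i, |Multiplicative.toAdd (χ (x i))| ≤ 1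

lemma ltr_short (hx : Short χ x) (l : ι × Bool) : |Multiplicative.toAdd (χ (ltr x l))| ≤ 1 := by
  rcases l with ⟨i, b⟩
  cases b
  · simpa using hx i
  · simpa using hx i

lemma ev_short (hx : Short χ x) (w : List (ι × Bool)) :
    |Multiplicative.toAdd (χ (ev x w))| ≤ w.length := by
  induction w with
  | nil => simp
  | cons l w ih =>
    rw [ev_cons, map_mul, toAdd_mul]
    have h1 := ltr_short hx l
    have h2 := abs_add_le (Multiplicative.toAdd (χ (ltr x l))) (Multiplicative.toAdd (χ (ev x w)))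
    simp only [List.length_cons]
    push_cast
    linarith

lemma ball_VZ (hx : Short χ x) (n : ℕ) (v u : VZ χ) (hu : u ∈ ball x n v) :
    |u.v - v.v| ≤ n := by
  obtain ⟨w, hw, rfl⟩ := hu
  rw [smul_v]
  have h1 := ev_short hx w
  have h2 : (w.length : ℤ) ≤ n := by exact_mod_cast hw
  rw [add_sub_cancel_left]
  exact h1.trans h2

variable (χ)
def posA : Set (VZ χ) := {v | 0 ≤ v.v}
def sig (n : ℕ) : Set (VZ χ) := {v | |v.v| ≤ 2 * n}
def zr : VZ χ := ⟨0⟩
variable {χ}

lemma zr_mem (n : ℕ) : zr χ ∈ sig χ n := by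
  show |(0 : ℤ)| ≤ 2 * n
  simp

lemma tri (hx : Short χ x) (n : ℕ) (v : VZ χ) :
    ball x n v ⊆ posA χ ∨ ball x n v ⊆ (posA χ)ᶜ ∨ ball x n v ⊆ sig χ n := by
  by_cases h1 : (n : ℤ) ≤ v.v
  · left
    intro u hu
    have := ball_VZ hx n v u hu
    show 0 ≤ u.v
    rw [abs_le] at this
    linarith [this.1]
  · by_cases h2 : v.v ≤ -(n : ℤ) - 1
    · right; left
      intro u hu
      have := ball_VZ hx n v u hu
      show ¬ (0 ≤ u.v)
      rw [abs_le] at this
      linarith [this.2]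
    · right; right
      intro u hu
      have := ball_VZ hx n v u hu
      show |u.v| ≤ 2 * n
      rw [abs_le] at this ⊢
      constructor
      · linarith [this.1]
      · linarith [this.2]

lemma sig_finite (n : ℕ) : (sig χ n).Finite := by
  have : (sig χ n) ⊆ (fun z : ℤ => (⟨z⟩ : VZ χ)) '' (Set.Icc (-(2 * n : ℤ)) (2 * n)) := by
    intro v hv
    exact ⟨v.v, abs_le.1 hv, rfl⟩
  exact ((Set.finite_Icc _ _).image _).subset this

lemma conn (n : ℕ) (i0 : ι) (h0 : Multiplicative.toAdd (χ (x i0)) = 1) :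
    ∀ v ∈ sig χ n, ∃ g : K, Reach x (sig χ n) (zr χ) g ∧ g • (zr χ) = v := by
  have hpos : ∀ k : ℕ, k ≤ 2 * n → Reach x (sig χ n) (zr χ) ((x i0) ^ k) := by
    intro k
    induction k with
    | zero => intro _; rw [pow_zero]; exact Reach.one (zr_mem n)
    | succ k ih =>
      intro hk
      have h1 := ih (by omega)
      have hk' : ((k + 1 : ℕ) : ℤ) ≤ 2 * n := by exact_mod_cast hk
      have h2 := Reach.step (x := x) (i0, true) _ h1 (by
        show |((ltr x (i0, true) * x i0 ^ k) • zr χ).v| ≤ 2 * n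
        rw [smul_v, ltr_true, ← pow_succ', map_pow, toAdd_pow, h0]
        show |(0 : ℤ) + _| ≤ 2 * n
        simp only [zero_add, nsmul_eq_mul, mul_one]
        rw [abs_le]
        constructor
        · push_cast; linarith [Int.natCast_nonneg k, Int.natCast_nonneg n]
        · exact hk')
      rwa [ltr_true, ← pow_succ'] at h2
  have hneg : ∀ k : ℕ, k ≤ 2 * n → Reach x (sig χ n) (zr χ) ((x i0)⁻¹ ^ k) := by
    intro k
    induction k with
    | zero => intro _; rw [pow_zero]; exact Reach.one (zr_mem n)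
    | succ k ih =>
      intro hk
      have h1 := ih (by omega)
      have hk' : ((k + 1 : ℕ) : ℤ) ≤ 2 * n := by exact_mod_cast hk
      have h2 := Reach.step (x := x) (i0, false) _ h1 (by
        show |((ltr x (i0, false) * (x i0)⁻¹ ^ k) • zr χ).v| ≤ 2 * n
        rw [smul_v, ltr_false, ← pow_succ', map_pow, toAdd_pow, map_inv, toAdd_inv, h0]
        show |(0 : ℤ) + _| ≤ 2 * n
        simp only [zero_add, nsmul_eq_mul]
        rw [abs_le]
        constructor
        · linarith
        · push_cast; linarith [Int.natCast_nonneg k, Int.natCast_nonneg n])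
      rwa [ltr_false, ← pow_succ'] at h2
  intro v hv
  have hv' : |v.v| ≤ 2 * n := hv
  rw [abs_le] at hv'
  by_cases h : 0 ≤ v.v
  · refine ⟨_, hpos v.v.toNat (by omega), ?_⟩
    ext
    rw [smul_v, map_pow, toAdd_pow, h0]
    show (0 : ℤ) + _ = v.v
    simp only [nsmul_eq_mul, mul_one, zero_add]
    exact Int.toNat_of_nonneg h
  · refine ⟨_, hneg (-v.v).toNat (by omega), ?_⟩
    ext
    rw [smul_v, map_pow, toAdd_pow, map_inv, toAdd_inv, h0]
    show (0 : ℤ) + _ = v.v
    simp only [nsmul_eq_mul, zero_add]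
    rw [Int.toNat_of_nonneg (by omega)]
    ring

/-- the automorphism inverting the generators turns half-lines around -/
lemma reach_neg (τ : K →* K) (hτ : ∀ i, τ (x i) = (x i)⁻¹) {T T' : Set (VZ χ)}
    (hT : ∀ v : VZ χ, v ∈ T → (⟨-v.v⟩ : VZ χ) ∈ T')
    (hχ : ∀ g, χ (τ g) = (χ g)⁻¹) {v : VZ χ} {g : K}
    (h : Reach x T v g) : Reach x T' (⟨-v.v⟩ : VZ χ) (τ g) := by
  induction h with
  | one h => rw [map_one]; exact Reach.one (hT v h)
  | step l g hg hm ih =>
    rw [map_mul]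
    have e : τ (ltr x l) = ltr x (linv l) := by
      rw [ltr_linv]
      rcases l with ⟨i, b⟩
      cases b <;> simp [hτ]
    rw [e]
    refine Reach.step _ _ ih ?_
    rw [← e, ← map_mul]
    have h1 := hT _ hm
    have h2 : (τ (ltr x l * g)) • (⟨-v.v⟩ : VZ χ) = ⟨-((ltr x l * g) • v).v⟩ := by
      ext
      rw [smul_v, smul_v, hχ, toAdd_inv]
      ring
    rw [h2]
    exact h1

lemma chi_tau (hg : Gens x) (τ : K →* K) (hτ : ∀ i, τ (x i) = (x i)⁻¹) (g : K) :
    χ (τ g) = (χ g)⁻¹ := by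
  obtain ⟨w, rfl⟩ := hg g
  induction w with
  | nil => simp
  | cons l w ih =>
    rw [ev_cons, map_mul, map_mul, map_mul, ih, mul_inv]
    congr 1
    rcases l with ⟨i, b⟩
    cases b <;> simp [hτ]

lemma tau_tau (hg : Gens x) (τ : K →* K) (hτ : ∀ i, τ (x i) = (x i)⁻¹) (g : K) :
    τ (τ g) = g := by
  obtain ⟨w, rfl⟩ := hg g
  induction w with
  | nil => simp
  | cons l w ih =>
    rw [ev_cons, map_mul, map_mul, ih]
    congr 1
    rcases l with ⟨i, b⟩
    cases b <;> simp [hτ]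

lemma fg_map {G H : Type} [Group G] [Group H] (f : G →* H) {P : Subgroup G} (h : P.FG) :
    (P.map f).FG := by
  classical
  obtain ⟨S, hS⟩ := h
  refine ⟨S.image f, ?_⟩
  rw [Finset.coe_image, ← MonoidHom.map_closure, hS]

lemma loops_neg_fg (hg : Gens x) (τ : K →* K) (hτ : ∀ i, τ (x i) = (x i)⁻¹) {T T' : Set (VZ χ)}
    (hT : ∀ v : VZ χ, v ∈ T → (⟨-v.v⟩ : VZ χ) ∈ T')
    (hT' : ∀ v : VZ χ, v ∈ T' → (⟨-v.v⟩ : VZ χ) ∈ T)
    (h0 : zr χ ∈ T) (h0' : zr χ ∈ T')
    (h : (loops x T (zr χ)).FG) : (loops x T' (zr χ)).FG := by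
  have hχ := chi_tau (χ := χ) hg τ hτ
  have hz : (⟨-(zr χ).v⟩ : VZ χ) = zr χ := by
    ext
    show -(0 : ℤ) = 0
    simp
  have fixed : ∀ g : K, g • zr χ = zr χ → (τ g) • zr χ = zr χ := by
    intro g hgz
    have e1 := congrArg VZ.v hgz
    ext
    rw [smul_v] at e1 ⊢
    rw [hχ, toAdd_inv]
    linarith
  have heq : loops x T' (zr χ) = (loops x T (zr χ)).map τ := by
    apply le_antisymm
    · intro g hgm
      rw [mem_loops h0'] at hgm
      refine ⟨τ g, ?_, tau_tau hg τ hτ g⟩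
      show τ g ∈ loops x T (zr χ)
      rw [mem_loops h0]
      refine ⟨?_, fixed g hgm.2⟩
      have := reach_neg τ hτ hT' hχ hgm.1
      rwa [hz] at this
    · rintro _ ⟨g, hgm, rfl⟩
      have hgm' : g ∈ loops x T (zr χ) := hgm
      rw [mem_loops h0] at hgm'
      rw [mem_loops h0']
      refine ⟨?_, fixed g hgm'.2⟩
      have := reach_neg τ hτ hT hχ hgm'.1
      rwa [hz] at this
  rw [heq]
  exact fg_map τ h

/-- The kernel of a homomorphism onto `ℤ` of a finitely presented group without free subgroups of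
rank two is finitely generated, if some automorphism inverts the generators. -/
theorem ker_fg [Finite ι] (n : ℕ) (hn : 1 ≤ n) (hp : Pres x n) (hg : Gens x) (hF : NoF2 K)
    (τ : K →* K) (hτ : ∀ i, τ (x i) = (x i)⁻¹) (hx : Short χ x) (i0 : ι)
    (h0 : Multiplicative.toAdd (χ (x i0)) = 1) : χ.ker.FG := by
  have hfg : (loops x (sig χ n) (zr χ)).FG := loops_fg x _ (sig_finite n) _
  have heng := engine x n hn hp hg hF (posA χ) (sig χ n) (zr χ) (zr_mem n) (tri hx n) hfg
  have hmem1 : zr χ ∈ posA χ ∪ sig χ n := Or.inr (zr_mem n)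
  have hmem2 : zr χ ∈ (posA χ)ᶜ ∪ sig χ n := Or.inr (zr_mem n)
  have hT : ∀ v : VZ χ, v ∈ posA χ ∪ sig χ n → (⟨-v.v⟩ : VZ χ) ∈ (posA χ)ᶜ ∪ sig χ n := by
    intro v hv
    have h1 : 0 ≤ v.v ∨ |v.v| ≤ 2 * n := hv
    show ¬ (0 ≤ -v.v) ∨ |(-v.v)| ≤ 2 * n
    rcases h1 with h1 | h1
    · by_cases hv0 : v.v = 0
      · right; rw [hv0]; simp
      · left; omega
    · right; rwa [abs_neg]
  have hT' : ∀ v : VZ χ, v ∈ (posA χ)ᶜ ∪ sig χ n → (⟨-v.v⟩ : VZ χ) ∈ posA χ ∪ sig χ n := by
    intro v hv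
    have h1 : ¬ (0 ≤ v.v) ∨ |v.v| ≤ 2 * n := hv
    show (0 ≤ -v.v) ∨ |(-v.v)| ≤ 2 * n
    rcases h1 with h1 | h1
    · left; omega
    · right; rwa [abs_neg]
  have both : (loops x (posA χ ∪ sig χ n) (zr χ)).FG ∧
      (loops x ((posA χ)ᶜ ∪ sig χ n) (zr χ)).FG := by
    rcases heng with h | h | h
    · have e : loops x (posA χ ∪ sig χ n) (zr χ) = loops x (sig χ n) (zr χ) :=
        le_antisymm h (loops_mono Set.subset_union_right _)
      have h1 : (loops x (posA χ ∪ sig χ n) (zr χ)).FG := by rw [e]; exact hfg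
      exact ⟨h1, loops_neg_fg hg τ hτ hT hT' hmem1 hmem2 h1⟩
    · have e : loops x ((posA χ)ᶜ ∪ sig χ n) (zr χ) = loops x (sig χ n) (zr χ) :=
        le_antisymm h (loops_mono Set.subset_union_right _)
      have h1 : (loops x ((posA χ)ᶜ ∪ sig χ n) (zr χ)).FG := by rw [e]; exact hfg
      exact ⟨loops_neg_fg hg τ hτ hT' hT hmem2 hmem1 h1, h1⟩
    · exact h
  have hker : χ.ker = loops x (posA χ ∪ sig χ n) (zr χ) ⊔ loops x ((posA χ)ᶜ ∪ sig χ n) (zr χ) := by
    have hst : χ.ker = MulAction.stabilizer K (zr χ) := by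
      ext g
      rw [MonoidHom.mem_ker, MulAction.mem_stabilizer_iff]
      constructor
      · intro h
        ext
        rw [smul_v, h]
        simp
      · intro h
        have h1 := congrArg VZ.v h
        rw [smul_v] at h1
        have h2 : Multiplicative.toAdd (χ g) = 0 := by linarith
        exact h2
    rw [hst]
    apply le_antisymm
    · exact stab_le_sup x n hn hg (posA χ) (sig χ n) (zr χ) (zr_mem n) (conn n i0 h0) (tri hx n)
    · exact sup_le (loops_le_stab _ _) (loops_le_stab _ _)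
  rw [hker]
  exact both.1.sup both.2

end

end Pool.Agent.H319.FPR
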