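import Pool.Agent.H319.FPR.Fg
import Pool.Graph.R_seed8.H45R3.UG.Solv
import Pool.Graph.R_seed8.H785R3.GrowthP

set_option autoImplicit false

open Polynomial
open scoped IsMulCommutative commutatorElement

namespace Pool.Agent.H319.FPR

open Pool.Agent.H45R3.UG

/-- the endomorphism of the abelianization induced by conjugation -/
noncomputable def act {G : Type} [Group G] (N : Subgroup G) [N.Normal] (t : G) :
    Module.End ℤ (Additive (Abelianization N)) :=
  (MonoidHom.toAdditive
    (Abelianization.map (MulAut.conjNormal t : N ≃* N).toMonoidHom)).toIntLinearMap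

lemma act_of {G : Type} [Group G] (N : Subgroup G) [N.Normal] (t : G) (a : N) :
    act N t (Additive.ofMul (Abelianization.of a)) =
      Additive.ofMul (Abelianization.of (MulAut.conjNormal t a)) := by
  simp [act]

lemma aeval_comm {M N : Type} [AddCommGroup M] [AddCommGroup N] (φ : M →ₗ[ℤ] N)
    {g : Module.End ℤ M} {h : Module.End ℤ N} (hc : ∀ m, φ (g m) = h (φ m))
    (p : Polynomial ℤ) (m : M) :
    φ ((Polynomial.aeval g p) m) = (Polynomial.aeval h p) (φ m) := by
  induction p using Polynomial.induction_on' with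
  | add p q hp hq => rw [map_add, map_add, LinearMap.add_apply, LinearMap.add_apply, map_add, hp, hq]
  | monomial n a =>
    rw [Polynomial.aeval_monomial, Polynomial.aeval_monomial, Module.End.mul_apply,
      Module.End.mul_apply, Module.algebraMap_end_apply, Module.algebraMap_end_apply, map_smul]
    congr 1
    induction n with
    | zero => simp
    | succ n ih => rw [pow_succ', pow_succ', Module.End.mul_apply, Module.End.mul_apply, hc, ih]

lemma of_surj (G : Type) [Group G] : Function.Surjective (Abelianization.of (G := G)) :=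
  QuotientGroup.mk_surjective

lemma finite_ab {G : Type} [Group G] (hG : Group.FG G) :
    Module.Finite ℤ (Additive (Abelianization G)) := by
  have h1 : Group.FG (Abelianization G) := by
    have := hG
    exact Group.fg_of_surjective (f := Abelianization.of (G := G)) (of_surj G)
  have h2 : AddGroup.FG (Additive (Abelianization G)) := GroupFG.iff_add_fg.1 h1
  exact Module.Finite.iff_addGroup_fg.2 h2

lemma cA_neg_pow {Q : Type} [Group Q] (A : Subgroup Q) [A.Normal] [IsMulCommutative A] (s : Q)
    (e : ℤ) (he : s ^ e = 1) : cA A s ^ e.natAbs = 1 := by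
  rw [← cA_pow]
  have : s ^ e.natAbs = 1 := by
    rcases Int.natAbs_eq e with h | h
    · rw [h] at he
      rwa [zpow_natCast] at he
    · rw [h] at he
      rw [zpow_neg, zpow_natCast, inv_eq_one] at he
      exact he
  rw [this, cA_one]

/-- one polynomial kills all abelian normal sections of all the groups of the variety -/
theorem exists_poly {n : ℕ} (N : Subgroup (FreeGroup (Fin n))) [N.Normal] (hN : N ≠ ⊥)
    (hinv : ∀ φ : FreeGroup (Fin n) →* FreeGroup (Fin n), ∀ x ∈ N, φ x ∈ N)
    (R : Set (FreeGroup (Fin n))) (hR : R.Finite) (hRN : Subgroup.normalClosure R = N) :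
    ∃ P : ℤ[X], P.Monic ∧ ∀ (Q : Type) [Group Q], (∀ f : FreeGroup (Fin n) →* Q, N ≤ f.ker) →
      ∀ (A : Subgroup Q) [A.Normal] [IsMulCommutative A] (s : Q), aeval (cA A s) P = 0 := by
  rcases dichotomy N hN hinv R hR hRN with ⟨χ, x0, x1, hker, hx1, h⟩ | ⟨e, he, h⟩
  · have : Module.Finite ℤ (Additive (Abelianization χ.ker)) :=
      finite_ab ((Group.fg_iff_subgroup_fg _).2 hker)
    obtain ⟨P, hP, h0⟩ := LinearMap.exists_monic_and_aeval_eq_zero ℤ (act χ.ker x0)
    refine ⟨P, hP, ?_⟩
    intro Q _ hQ A _ _ s
    apply LinearMap.ext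
    intro u
    obtain ⟨f, hf0, hf1, hf⟩ := h Q hQ s ((u.toMul : A) : Q)
    have hle : ∀ k : χ.ker, f k ∈ A := by
      intro k
      have h1 : f (k : _) ∈ χ.ker.map f := ⟨k, k.2, rfl⟩
      rw [hf] at h1
      refine (Subgroup.closure_le A).2 ?_ h1
      rintro _ ⟨j, rfl⟩
      exact Subgroup.Normal.conj_mem inferInstance _ u.toMul.2 _
    let g : χ.ker →* A := (f.comp χ.ker.subtype).codRestrict A hle
    let Φ0 : Abelianization χ.ker →* A := Abelianization.lift g
    let Φ : Additive (Abelianization χ.ker) →ₗ[ℤ] Additive A :=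
      (MonoidHom.toAdditive Φ0).toIntLinearMap
    have hΦ : ∀ k : χ.ker, Φ (Additive.ofMul (Abelianization.of k)) = Additive.ofMul (g k) := by
      intro k
      show Additive.ofMul (Φ0 (Abelianization.of k)) = _
      congr 1
    have hcomm : ∀ m, Φ (act χ.ker x0 m) = cA A s (Φ m) := by
      intro m
      obtain ⟨k, hk⟩ := of_surj χ.ker m.toMul
      have hm : m = Additive.ofMul (Abelianization.of k) := by
        apply Additive.toMul.injective
        exact hk.symm
      rw [hm, act_of, hΦ, hΦ]
      apply Additive.toMul.injective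
      apply Subtype.ext
      rw [cA_coe]
      show f (MulAut.conjNormal x0 k : χ.ker) = s * f k * s⁻¹
      rw [MulAut.conjNormal_apply, map_mul, map_mul, map_inv, hf0]
    have h2 := aeval_comm Φ hcomm P (Additive.ofMul (Abelianization.of ⟨x1, hx1⟩))
    rw [h0, LinearMap.zero_apply, map_zero, hΦ] at h2
    have h3 : Additive.ofMul (g ⟨x1, hx1⟩) = u := by
      apply Additive.toMul.injective
      apply Subtype.ext
      show f x1 = _
      rw [hf1]
    rw [h3] at h2
    rw [← h2]
    rfl
  · refine ⟨X ^ e.natAbs - 1, ?_, ?_⟩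
    · exact monic_X_pow_sub_C 1 (Int.natAbs_ne_zero.2 he)
    · intro Q _ hQ A _ _ s
      rw [map_sub, map_pow, aeval_X, map_one, cA_neg_pow A s e (h Q hQ s), sub_self]

end Pool.Agent.H319.FPR
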