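import Pool.Agent.H319.FPR.Free
import Pool.Agent.H319.FPR.Ker

set_option autoImplicit false

namespace Pool.Agent.H319.FPR

open Pool.Agent.H931

section
variable {n : ℕ} (N : Subgroup (FreeGroup (Fin n))) [N.Normal]

/-- the generators of the quotient -/
def gx (i : Fin n) : FreeGroup (Fin n) ⧸ N := QuotientGroup.mk' N (FreeGroup.of i)

lemma ev_eq_lift {ι G : Type} [Group G] (f : ι → G) (w : List (ι × Bool)) :
    ev f w = FreeGroup.lift f (FreeGroup.mk w) := by
  rw [FreeGroup.lift_mk]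
  rfl

lemma lift_gx : FreeGroup.lift (gx N) = QuotientGroup.mk' N := by
  ext i
  simp [gx]

lemma gens_gx : Gens (gx N) := by
  intro g
  obtain ⟨y, rfl⟩ := QuotientGroup.mk'_surjective N g
  refine ⟨y.toWord, ?_⟩
  rw [ev_eq_lift, FreeGroup.mk_toWord, lift_gx]

lemma pres_gx (R : Set (FreeGroup (Fin n))) (hR : R.Finite) (hRN : Subgroup.normalClosure R = N) :
    ∃ m : ℕ, 1 ≤ m ∧ Pres (gx N) m := by
  obtain ⟨m, hm⟩ : ∃ m : ℕ, ∀ r ∈ R, r.toWord.length ≤ m := by
    obtain ⟨m, hm⟩ := (hR.image (fun r => r.toWord.length)).bddAbove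
    exact ⟨m, fun r hr => hm ⟨r, hr, rfl⟩⟩
  refine ⟨m + 1, by omega, ?_⟩
  intro G _ f hf
  have hlift : N ≤ (FreeGroup.lift f).ker := by
    rw [← hRN]
    apply Subgroup.normalClosure_le_normal
    intro r hr
    have h1 : ev f r.toWord = FreeGroup.lift f r := by
      rw [ev_eq_lift, FreeGroup.mk_toWord]
    show FreeGroup.lift f r = 1
    rw [← h1]
    apply hf
    · exact (hm r hr).trans (by omega)
    · rw [ev_eq_lift, FreeGroup.mk_toWord, lift_gx]
      apply (QuotientGroup.eq_one_iff _).2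
      rw [← hRN]
      exact Subgroup.subset_normalClosure hr
  refine ⟨QuotientGroup.lift N (FreeGroup.lift f) (fun a ha => hlift ha), fun i => ?_⟩
  show QuotientGroup.lift N (FreeGroup.lift f) _ (QuotientGroup.mk' N (FreeGroup.of i)) = f i
  rw [QuotientGroup.mk'_apply, QuotientGroup.lift_mk]
  simp

/-- the endomorphism of the quotient induced by an endomorphism of the free group -/
lemma exists_endo (hinv : ∀ φ : FreeGroup (Fin n) →* FreeGroup (Fin n), ∀ x ∈ N, φ x ∈ N)
    (φ : FreeGroup (Fin n) →* FreeGroup (Fin n)) :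
    ∃ τ : FreeGroup (Fin n) ⧸ N →* FreeGroup (Fin n) ⧸ N,
      ∀ y, τ (QuotientGroup.mk' N y) = QuotientGroup.mk' N (φ y) := by
  have h : N ≤ ((QuotientGroup.mk' N).comp φ).ker :=
    fun a ha => (QuotientGroup.eq_one_iff _).2 (hinv φ a ha)
  exact ⟨QuotientGroup.lift N ((QuotientGroup.mk' N).comp φ) h, fun y => rfl⟩

end

/-- all subgroups generated by the conjugates of an element by the powers of another element are
finitely generated -/
def Restr (H : Type) [Group H] : Prop :=
  ∀ a b : H, (Subgroup.closure (Set.range fun j : ℤ => a ^ j * b * (a ^ j)⁻¹)).FG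

lemma closure_conj {H : Type} [Group H] (a b : H) (k : ℤ) :
    ∀ c ∈ Subgroup.closure (Set.range fun j : ℤ => a ^ j * b * (a ^ j)⁻¹),
      a ^ k * c * (a ^ k)⁻¹ ∈ Subgroup.closure (Set.range fun j : ℤ => a ^ j * b * (a ^ j)⁻¹) := by
  intro c hc
  induction hc using Subgroup.closure_induction with
  | mem x hx =>
    obtain ⟨j, rfl⟩ := hx
    apply Subgroup.subset_closure
    refine ⟨k + j, ?_⟩
    simp only
    rw [zpow_add]
    group
  | one => simp
  | mul x y _ _ hx hy =>
    have e : a ^ k * (x * y) * (a ^ k)⁻¹ = (a ^ k * x * (a ^ k)⁻¹) * (a ^ k * y * (a ^ k)⁻¹) := by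
      group
    rw [e]
    exact Subgroup.mul_mem _ hx hy
  | inv x _ hx =>
    have e : a ^ k * x⁻¹ * (a ^ k)⁻¹ = (a ^ k * x * (a ^ k)⁻¹)⁻¹ := by group
    rw [e]
    exact Subgroup.inv_mem _ hx

/-- The dichotomy: either the kernel of a homomorphism onto `ℤ` is finitely generated, or the laws
imply a finite exponent. -/
theorem dichotomy2 {n : ℕ} (hn : 2 ≤ n) (N : Subgroup (FreeGroup (Fin n))) [N.Normal] (hN : N ≠ ⊥)
    (hinv : ∀ φ : FreeGroup (Fin n) →* FreeGroup (Fin n), ∀ x ∈ N, φ x ∈ N)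
    (R : Set (FreeGroup (Fin n))) (hR : R.Finite) (hRN : Subgroup.normalClosure R = N) :
    (∃ (χ : FreeGroup (Fin n) ⧸ N →* Multiplicative ℤ) (x0 x1 : FreeGroup (Fin n) ⧸ N),
      χ.ker.FG ∧ χ x1 = 1 ∧
      ∀ (H : Type) [Group H], (∀ f : FreeGroup (Fin n) →* H, N ≤ f.ker) → ∀ a b : H,
        ∃ f : FreeGroup (Fin n) ⧸ N →* H, f x0 = a ∧ f x1 = b ∧
          χ.ker.map f = Subgroup.closure (Set.range fun j : ℤ => a ^ j * b * (a ^ j)⁻¹)) ∨
    (∃ e : ℤ, e ≠ 0 ∧ ∀ (H : Type) [Group H], (∀ f : FreeGroup (Fin n) →* H, N ≤ f.ker) →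
      ∀ a : H, a ^ e = 1) := by
  obtain ⟨i0, hi0⟩ : ∃ i : Fin n, (i : ℕ) = 0 := ⟨⟨0, by omega⟩, rfl⟩
  obtain ⟨i1, hi1⟩ : ∃ i : Fin n, (i : ℕ) = 1 := ⟨⟨1, by omega⟩, rfl⟩
  have h01 : i1 ≠ i0 := by
    intro h
    rw [h, hi0] at hi1
    omega
  let c0 : FreeGroup (Fin n) →* Multiplicative ℤ :=
    FreeGroup.lift (fun i => if i = i0 then Multiplicative.ofAdd 1 else 1)
  by_cases hc : N ≤ c0.ker
  · -- the rank one quotient is infinite cyclic
    left
    let χ : FreeGroup (Fin n) ⧸ N →* Multiplicative ℤ := QuotientGroup.lift N c0 (fun a ha => hc ha)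
    have hχ0 : χ (gx N i0) = Multiplicative.ofAdd 1 := by
      show QuotientGroup.lift N c0 _ (QuotientGroup.mk' N (FreeGroup.of i0)) = _
      rw [QuotientGroup.mk'_apply, QuotientGroup.lift_mk]
      simp [c0]
    have hχi : ∀ i, i ≠ i0 → χ (gx N i) = 1 := by
      intro i hi
      show QuotientGroup.lift N c0 _ (QuotientGroup.mk' N (FreeGroup.of i)) = _
      rw [QuotientGroup.mk'_apply, QuotientGroup.lift_mk]
      simp [c0, hi]
    have hshort : Short χ (gx N) := by
      intro i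
      by_cases hi : i = i0
      · rw [hi, hχ0]; simp
      · rw [hχi i hi]; simp
    obtain ⟨m, hm, hp⟩ := pres_gx N R hR hRN
    obtain ⟨τ, hτ0⟩ := exists_endo N hinv (FreeGroup.lift (fun i => (FreeGroup.of i)⁻¹))
    have hτ : ∀ i, τ (gx N i) = (gx N i)⁻¹ := by
      intro i
      show τ (QuotientGroup.mk' N (FreeGroup.of i)) = (QuotientGroup.mk' N (FreeGroup.of i))⁻¹
      rw [hτ0, FreeGroup.lift_apply_of, map_inv]
    have hker : χ.ker.FG :=
      ker_fg (χ := χ) m hm hp (gens_gx N) (noF2 N hN hinv) τ hτ hshort i0 (by rw [hχ0]; rfl)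
    refine ⟨χ, gx N i0, gx N i1, hker, hχi i1 h01, ?_⟩
    intro H _ hH a b
    let f : FreeGroup (Fin n) ⧸ N →* H := QuotientGroup.lift N
      (FreeGroup.lift (fun i => if i = i0 then a else if i = i1 then b else 1))
      (fun a ha => hH _ ha)
    have hf0 : f (gx N i0) = a := by
      show QuotientGroup.lift N _ _ (QuotientGroup.mk' N (FreeGroup.of i0)) = _
      rw [QuotientGroup.mk'_apply, QuotientGroup.lift_mk]
      simp
    have hf1 : f (gx N i1) = b := by
      show QuotientGroup.lift N _ _ (QuotientGroup.mk' N (FreeGroup.of i1)) = _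
      rw [QuotientGroup.mk'_apply, QuotientGroup.lift_mk]
      simp [h01]
    have hfi : ∀ i, i ≠ i0 → i ≠ i1 → f (gx N i) = 1 := by
      intro i hi hi'
      show QuotientGroup.lift N _ _ (QuotientGroup.mk' N (FreeGroup.of i)) = _
      rw [QuotientGroup.mk'_apply, QuotientGroup.lift_mk]
      simp [hi, hi']
    refine ⟨f, hf0, hf1, ?_⟩
    set C := Subgroup.closure (Set.range fun j : ℤ => a ^ j * b * (a ^ j)⁻¹) with hC
    have hbC : b ∈ C := Subgroup.subset_closure ⟨0, by simp⟩
    have hrep : ∀ w : List (Fin n × Bool), ∃ c ∈ C,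
        f (ev (gx N) w) = c * a ^ (Multiplicative.toAdd (χ (ev (gx N) w))) := by
      intro w
      induction w with
      | nil => exact ⟨1, C.one_mem, by simp⟩
      | cons l w ih =>
        obtain ⟨c, hcC, hce⟩ := ih
        rw [ev_cons, map_mul, map_mul, hce, toAdd_mul]
        rcases l with ⟨i, s⟩
        by_cases hi : i = i0
        · subst hi
          cases s
          · refine ⟨a ^ (-1 : ℤ) * c * (a ^ (-1 : ℤ))⁻¹, closure_conj a b (-1) c hcC, ?_⟩
            rw [ltr_false, map_inv, map_inv, hf0, hχ0, zpow_add]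
            simp only [toAdd_inv, toAdd_ofAdd]
            group
          · refine ⟨a ^ (1 : ℤ) * c * (a ^ (1 : ℤ))⁻¹, closure_conj a b 1 c hcC, ?_⟩
            rw [ltr_true, hf0, hχ0, zpow_add]
            simp only [toAdd_ofAdd]
            group
        · have hχl : χ (ltr (gx N) (i, s)) = 1 := by
            cases s
            · rw [ltr_false, map_inv, hχi i hi, inv_one]
            · rw [ltr_true, hχi i hi]
          rw [hχl, toAdd_one, zero_add]
          have hfl : f (ltr (gx N) (i, s)) ∈ C := by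
            by_cases hi' : i = i1
            · subst hi'
              cases s
              · rw [ltr_false, map_inv, hf1]; exact C.inv_mem hbC
              · rw [ltr_true, hf1]; exact hbC
            · cases s
              · rw [ltr_false, map_inv, hfi i hi hi', inv_one]; exact C.one_mem
              · rw [ltr_true, hfi i hi hi']; exact C.one_mem
          exact ⟨f (ltr (gx N) (i, s)) * c, C.mul_mem hfl hcC, by rw [mul_assoc]⟩
    symm
    apply le_antisymm
    · rw [hC, Subgroup.closure_le]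
      rintro _ ⟨j, rfl⟩
      refine ⟨(gx N i0) ^ j * gx N i1 * ((gx N i0) ^ j)⁻¹, ?_, ?_⟩
      · show χ _ = 1
        rw [map_mul, map_mul, map_inv, hχi i1 h01, mul_one, mul_inv_cancel]
      · rw [map_mul, map_mul, map_inv, map_zpow, hf0, hf1]
    · rintro _ ⟨g, hg, rfl⟩
      obtain ⟨w, rfl⟩ := gens_gx N g
      obtain ⟨c, hcC, hce⟩ := hrep w
      have hg' : χ (ev (gx N) w) = 1 := hg
      rw [hce, hg', toAdd_one, zpow_zero, mul_one]
      exact hcC
  · -- finite exponent
    right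
    obtain ⟨w, hw, hw1⟩ := Set.not_subset.1 hc
    have hw2 : c0 w ≠ 1 := hw1
    refine ⟨Multiplicative.toAdd (c0 w), fun h => hw2 h, ?_⟩
    intro H _ hH a
    let φ : FreeGroup (Fin n) →* H := (zpowersHom H a).comp c0
    have h1 : φ w = 1 := hH φ hw
    exact h1

/-- The dichotomy in all ranks. -/
theorem dichotomy {n : ℕ} (N : Subgroup (FreeGroup (Fin n))) [N.Normal] (hN : N ≠ ⊥)
    (hinv : ∀ φ : FreeGroup (Fin n) →* FreeGroup (Fin n), ∀ x ∈ N, φ x ∈ N)
    (R : Set (FreeGroup (Fin n))) (hR : R.Finite) (hRN : Subgroup.normalClosure R = N) :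
    (∃ (χ : FreeGroup (Fin n) ⧸ N →* Multiplicative ℤ) (x0 x1 : FreeGroup (Fin n) ⧸ N),
      χ.ker.FG ∧ χ x1 = 1 ∧
      ∀ (H : Type) [Group H], (∀ f : FreeGroup (Fin n) →* H, N ≤ f.ker) → ∀ a b : H,
        ∃ f : FreeGroup (Fin n) ⧸ N →* H, f x0 = a ∧ f x1 = b ∧
          χ.ker.map f = Subgroup.closure (Set.range fun j : ℤ => a ^ j * b * (a ^ j)⁻¹)) ∨
    (∃ e : ℤ, e ≠ 0 ∧ ∀ (H : Type) [Group H], (∀ f : FreeGroup (Fin n) →* H, N ≤ f.ker) →
      ∀ a : H, a ^ e = 1) := by
  by_cases hn : 2 ≤ n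
  · exact dichotomy2 hn N hN hinv R hR hRN
  · right
    obtain ⟨w, hw, hw1⟩ := (Subgroup.bot_or_exists_ne_one N).resolve_left hN
    have hn1 : n = 0 ∨ n = 1 := by omega
    rcases hn1 with rfl | rfl
    · exact absurd (Subsingleton.elim w 1) hw1
    · let c0 : FreeGroup (Fin 1) →* Multiplicative ℤ :=
        FreeGroup.lift (fun _ => Multiplicative.ofAdd 1)
      have hid : (zpowersHom (FreeGroup (Fin 1)) (FreeGroup.of 0)).comp c0 = MonoidHom.id _ := by
        ext i
        fin_cases i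
        simp [c0]
      have hw2 : c0 w ≠ 1 := by
        intro h
        apply hw1
        have := DFunLike.congr_fun hid w
        rw [MonoidHom.comp_apply, h, map_one] at this
        exact this.symm
      refine ⟨Multiplicative.toAdd (c0 w), fun h => hw2 h, ?_⟩
      intro H _ hH a
      let φ : FreeGroup (Fin 1) →* H := (zpowersHom H a).comp c0
      have h1 : φ w = 1 := hH φ hw
      exact h1

/-- Every group that satisfies the laws of a finitely presented relatively free group has property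
`Restr`. -/
theorem restr_of {n : ℕ} (N : Subgroup (FreeGroup (Fin n))) [N.Normal] (hN : N ≠ ⊥)
    (hinv : ∀ φ : FreeGroup (Fin n) →* FreeGroup (Fin n), ∀ x ∈ N, φ x ∈ N)
    (R : Set (FreeGroup (Fin n))) (hR : R.Finite) (hRN : Subgroup.normalClosure R = N)
    (H : Type) [Group H] (hH : ∀ f : FreeGroup (Fin n) →* H, N ≤ f.ker) : Restr H := by
  intro a b
  rcases dichotomy N hN hinv R hR hRN with ⟨χ, x0, x1, hker, _, h⟩ | ⟨e, he, h⟩
  · obtain ⟨f, _, _, hf⟩ := h H hH a b
    rw [← hf]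
    exact fg_map f hker
  · have h4 : IsOfFinOrder a := isOfFinOrder_iff_zpow_eq_one.2 ⟨_, he, h H hH a⟩
    have h5 : (Set.range fun j : ℤ => a ^ j).Finite := by
      have : (Set.range fun j : ℤ => a ^ j) = (Subgroup.zpowers a : Set H) := by
        ext y
        simp [Subgroup.mem_zpowers_iff]
      rw [this]
      exact finite_zpowers.2 h4
    have h6 : (Set.range fun j : ℤ => a ^ j * b * (a ^ j)⁻¹).Finite := by
      have : (Set.range fun j : ℤ => a ^ j * b * (a ^ j)⁻¹) =
          (fun y => y * b * y⁻¹) '' (Set.range fun j : ℤ => a ^ j) := by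
        rw [← Set.range_comp]
        rfl
      rw [this]
      exact h5.image _
    rw [Subgroup.fg_iff]
    exact ⟨_, rfl, h6⟩

end Pool.Agent.H319.FPR
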