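import Pool.Agent.H319.FPR.Poly

set_option autoImplicit false

open Polynomial
open scoped IsMulCommutative commutatorElement

namespace Pool.Agent.H319.FPR

open Pool.Agent.H45R3.UG

/-- the groups that satisfy the laws in `N` -/
def Laws {n : ℕ} (N : Subgroup (FreeGroup (Fin n))) (H : Type) [Group H] : Prop :=
  ∀ f : FreeGroup (Fin n) →* H, N ≤ f.ker

/-- the polynomial `P` kills conjugation by all elements on all abelian normal subgroups -/
def Kills (P : ℤ[X]) (Q : Type) [Group Q] : Prop :=
  ∀ (A : Subgroup Q) [A.Normal] [IsMulCommutative A] (s : Q), aeval (cA A s) P = 0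

lemma finite_of_killed {M : Type} [AddCommGroup M] [Module.Finite ℤ M] (g : Module.End ℤ M)
    (hg : Function.Injective g) (w : M) (e : ℕ) (he : 0 < e) (hw : (e : ℤ) • w = 0) :
    ∃ a : ℕ, 0 < a ∧ (g ^ a) w = w := by
  -- the orbit of `w` lies in the finite set of elements killed by `e`
  have hfin : {v : M | (e : ℤ) • v = 0}.Finite := by
    have h1 : {v : M | (e : ℤ) • v = 0} ⊆ (Submodule.torsion ℤ M : Set M) := by
      intro v hv
      rw [SetLike.mem_coe, Submodule.mem_torsion_iff]
      exact ⟨⟨(e : ℤ), mem_nonZeroDivisors_of_ne_zero (by omega)⟩, hv⟩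
    have h2 : Finite (Submodule.torsion ℤ M) := by
      apply Module.finite_of_fg_torsion
      exact Submodule.torsion_isTorsion
    exact (Set.toFinite (Submodule.torsion ℤ M : Set M)).subset h1
  have horb : ∀ j : ℕ, (g ^ j) w ∈ {v : M | (e : ℤ) • v = 0} := by
    intro j
    show (e : ℤ) • (g ^ j) w = 0
    rw [← map_smul, hw, map_zero]
  obtain ⟨i, j, hij, heq⟩ := hfin.exists_lt_map_eq_of_forall_mem horb
  have hinj : Function.Injective (g ^ i : Module.End ℤ M) := by
    rw [Module.End.coe_pow]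
    exact hg.iterate i
  refine ⟨j - i, by omega, ?_⟩
  apply hinj
  rw [← Module.End.mul_apply, ← pow_add]
  have : i + (j - i) = j := by omega
  rw [this]
  exact heq.symm

lemma qu_vec {Q : Type} [Group Q] (A : Subgroup Q) [A.Normal] [IsMulCommutative A] {P : ℤ[X]}
    (hP : P ≠ 0) (hk : ∀ s : Q, aeval (cA A s) P = 0) [Module.Finite ℤ (Additive A)] (s : Q)
    (v : Additive A) : ∃ m k : ℕ, 0 < m ∧ ((cA A s ^ m - 1) ^ k) v = 0 := by
  rcases Pool.Agent.H785R3.GrowthP.exists_root (cA A s) (cA_injective A s) v with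
    ⟨n, m, e, hn, he, h⟩ | ⟨x, hx0, hx, hp⟩
  · obtain ⟨a, ha, haw⟩ := finite_of_killed (cA A s) (cA_injective A s) _ e he h
    set g := cA A s with hg
    have hdvd : (X ^ n - 1 : ℤ[X]) ∣ X ^ (n * a) - 1 := by
      have := sub_dvd_pow_sub_pow ((X : ℤ[X]) ^ n) 1 a
      rwa [one_pow, ← pow_mul] at this
    have hdvd2 : (X ^ a - 1 : ℤ[X]) ∣ X ^ (n * a) - 1 := by
      have := sub_dvd_pow_sub_pow ((X : ℤ[X]) ^ a) 1 n
      rwa [one_pow, ← pow_mul, mul_comm] at this
    obtain ⟨h1, hh1⟩ := hdvd
    obtain ⟨h2, hh2⟩ := hdvd2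
    have ev1 : (g ^ (n * a) - 1) = aeval g h1 * (g ^ n - 1) := by
      have := congrArg (aeval g) hh1
      rw [mul_comm (X ^ n - 1 : ℤ[X]) h1, map_mul, map_sub, map_sub, map_pow, map_pow, aeval_X, map_one] at this
      exact this
    have ev2 : (g ^ (n * a) - 1) = aeval g h2 * (g ^ a - 1) := by
      have := congrArg (aeval g) hh2
      rw [mul_comm (X ^ a - 1 : ℤ[X]) h2, map_mul, map_sub, map_sub, map_pow, map_pow, aeval_X, map_one] at this
      exact this
    have hcomm : Commute (aeval g h1) (g ^ n - 1) := by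
      have : (g ^ n - 1) = aeval g (X ^ n - 1 : ℤ[X]) := by
        rw [map_sub, map_pow, aeval_X, map_one]
      rw [this]
      show aeval g h1 * aeval g (X ^ n - 1 : ℤ[X]) = aeval g (X ^ n - 1 : ℤ[X]) * aeval g h1
      rw [← map_mul, ← map_mul, mul_comm]
    refine ⟨n * a, m + 1, Nat.mul_pos hn ha, ?_⟩
    rw [pow_succ', Module.End.mul_apply]
    have e1 : ((g ^ (n * a) - 1) ^ m) v = (aeval g h1 ^ m) (((g ^ n - 1) ^ m) v) := by
      rw [ev1, hcomm.mul_pow, Module.End.mul_apply]
    rw [e1]
    have e2 : (g ^ (n * a) - 1) ((aeval g h1 ^ m) (((g ^ n - 1) ^ m) v)) =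
        (aeval g h1 ^ m) ((g ^ (n * a) - 1) (((g ^ n - 1) ^ m) v)) := by
      have hc : Commute (g ^ (n * a) - 1) (aeval g h1 ^ m) := by
        apply Commute.pow_right
        have : (g ^ (n * a) - 1) = aeval g (X ^ (n * a) - 1 : ℤ[X]) := by
          rw [map_sub, map_pow, aeval_X, map_one]
        rw [this]
        show aeval g _ * aeval g h1 = aeval g h1 * aeval g _
        rw [← map_mul, ← map_mul, mul_comm]
      rw [← Module.End.mul_apply, hc.eq, Module.End.mul_apply]
    rw [e2, ev2, Module.End.mul_apply]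
    have e3 : (g ^ a - 1) (((g ^ n - 1) ^ m) v) = 0 := by
      rw [LinearMap.sub_apply, haw, Module.End.one_apply, sub_self]
    rw [e3, map_zero, map_zero]
  · exfalso
    have hroots : ∀ r : ℕ, 0 < r → aeval (x ^ r) P = 0 := by
      intro r hr
      have h1 : aeval (cA A s ^ r) P = 0 := by
        rw [← cA_pow]
        exact hk (s ^ r)
      have h2 : aeval (cA A s) (P.comp (X ^ r)) = aeval (cA A s ^ r) P := by
        rw [aeval_comp, map_pow, aeval_X]
      have h3 : (aeval (cA A s) (P.comp (X ^ r))) v = 0 := by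
        rw [h2, h1, LinearMap.zero_apply]
      have h4 := hp _ h3
      rw [aeval_comp, map_pow, aeval_X] at h4
      exact h4
    have hP' : P.map (algebraMap ℤ ℂ) ≠ 0 := by
      intro h
      apply hP
      apply Polynomial.map_injective (algebraMap ℤ ℂ) (algebraMap ℤ ℂ).injective_int
      rw [h, Polynomial.map_zero]
    have hmem : ∀ r : ℕ, x ^ (r + 1) ∈ (P.map (algebraMap ℤ ℂ)).roots.toFinset := by
      intro r
      rw [Multiset.mem_toFinset, mem_roots hP', IsRoot.def, eval_map_algebraMap]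
      exact hroots (r + 1) (by omega)
    obtain ⟨i, j, hij, heq⟩ := (Finset.finite_toSet _).exists_lt_map_eq_of_forall_mem
      (f := fun r : ℕ => x ^ (r + 1)) (fun r => hmem r)
    have h5 : x ^ (j - i) = 1 := by
      have h6 : x ^ (i + 1) * x ^ (j - i) = x ^ (i + 1) * 1 := by
        rw [← pow_add, mul_one]
        have : i + 1 + (j - i) = j + 1 := by omega
        rw [this]
        exact heq.symm
      exact mul_left_cancel₀ (pow_ne_zero _ hx0) h6
    exact hx (j - i) (by omega) h5

lemma finite_of_fg {Q : Type} [Group Q] (A : Subgroup Q) [IsMulCommutative A] (hA : A.FG) :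
    Module.Finite ℤ (Additive A) := by
  have h1 : Group.FG A := (Group.fg_iff_subgroup_fg _).2 hA
  have h2 : AddGroup.FG (Additive A) := GroupFG.iff_add_fg.1 h1
  exact Module.Finite.iff_addGroup_fg.2 h2

/-- quasi-unipotent action on the sections of the derived series -/
theorem qu_of {G : Type} [Group G] {P : ℤ[X]} (hP : P ≠ 0) (i : ℕ)
    (hk : Kills P (G ⧸ derivedSeries G (i + 1))) (hfg : (derivedSeries G i).FG) (s : G) :
    QU i s := by
  classical
  obtain ⟨S, hS⟩ := hfg
  let π : G →* G ⧸ derivedSeries G (i + 1) := QuotientGroup.mk' _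
  have hsurj : Function.Surjective π := QuotientGroup.mk'_surjective _
  have hker : π.ker = derivedSeries G (i + 1) := QuotientGroup.ker_mk' _
  set A : Subgroup (G ⧸ derivedSeries G (i + 1)) := (derivedSeries G i).map π with hA
  have hAn : A.Normal := Subgroup.Normal.map inferInstance π hsurj
  have hAc : IsMulCommutative A := by
    rw [← Subgroup.commutator_self_eq_bot_iff, hA, ← Subgroup.map_commutator,
      Subgroup.map_eq_bot_iff, hker, derivedSeries_succ]
  have hSA : Subgroup.closure ((S.image π : Finset _) : Set (G ⧸ derivedSeries G (i + 1))) = A := by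
    rw [Finset.coe_image, ← MonoidHom.map_closure, hS]
  have hAfg : A.FG := ⟨S.image π, hSA⟩
  have hMf : Module.Finite ℤ (Additive A) := finite_of_fg A hAfg
  obtain ⟨m, k, hm, hkk⟩ := unifA A hSA (π s) (by
    intro v _
    exact qu_vec A hP (fun s => hk A s) (π s) v)
  refine ⟨m, k, hm, fun M a ha => ?_⟩
  have h1 := E_iter A (π s ^ (M * m)) k (Additive.ofMul ⟨π a, ⟨a, ha, rfl⟩⟩)
  rw [cA_pow, hkk M] at h1
  have h2 := E_map π (s ^ (M * m)) a k
  rw [map_pow] at h2
  rw [← hker, MonoidHom.mem_ker, h2]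
  exact h1.symm

/-- Finitely generated soluble groups that satisfy the laws of a finitely presented relatively free
group are virtually nilpotent. -/
theorem vn_of_soluble {n : ℕ} (N : Subgroup (FreeGroup (Fin n))) [N.Normal]
    (hN : N ≠ ⊥) (hinv : ∀ φ : FreeGroup (Fin n) →* FreeGroup (Fin n), ∀ x ∈ N, φ x ∈ N)
    (R : Set (FreeGroup (Fin n))) (hR : R.Finite) (hRN : Subgroup.normalClosure R = N)
    (H : Type) [Group H] (hH : Laws N H) (hfg : Group.FG H) (d : ℕ) (hd : derivedSeries H d = ⊥) :
    VirtNilp H := by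
  have hr := restr_of N hN hinv R hR hRN H hH
  obtain ⟨P, hP, hk⟩ := exists_poly N hN hinv R hR hRN
  have hfgi : ∀ i, (derivedSeries H i).FG := fun i => fg_of_soluble hr hfg _ i le_rfl
  choose S hS using hfgi
  refine vn_of_qu hd S (fun i _ => hS i) ?_
  intro j _ s _ i _ _
  refine qu_of hP.ne_zero i ?_ ⟨S i, hS i⟩ s
  intro A _ _ s
  refine hk _ ?_ A s
  intro f x hx
  -- the quotient satisfies the laws
  obtain ⟨g, hg⟩ : ∃ g : FreeGroup (Fin n) →* H,
      (QuotientGroup.mk' (derivedSeries H (i + 1))).comp g = f := by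
    have hsurj := QuotientGroup.mk'_surjective (derivedSeries H (i + 1))
    choose t ht using hsurj
    refine ⟨FreeGroup.lift (fun l => t (f (FreeGroup.of l))), ?_⟩
    ext l
    simp only [MonoidHom.comp_apply, FreeGroup.lift_apply_of]
    exact ht _
  have h1 : g x = 1 := hH g hx
  show f x = 1
  rw [← hg, MonoidHom.comp_apply, h1, map_one]

end Pool.Agent.H319.FPR
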